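import Pool.Agent.P.MP_29cb78_nt.H.Defs

/-!
The distribution relation for the multipliers.
-/

namespace Pool.Agent.P.MP_29cb78_nt.H

open E E2 Finset
open scoped Classical

namespace Dt

section Calc

variable {B B' : Type} [AddCommGroup B] [AddCommGroup B'] {d : ℕ} {bad : B → Prop} {F F' : B → U}

theorem congr (h : Ng d bad F) (e : ∀ x, ¬ bad x → F' x = F x) : Ng d bad F' :=
  let ⟨Q, h1, h2⟩ := h; ⟨Q, h1, fun x hx => (e x hx).trans (h2 x hx)⟩

theorem add (h : Ng d bad F) (h' : Ng d bad F') : Ng d bad fun x => F x + F' x :=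
  let ⟨_, h1, h2⟩ := h; let ⟨_, h3, h4⟩ := h'
  ⟨_, h1.add h3, fun x hx => by beta_reduce; rw [h2 x hx, h4 x hx]⟩

theorem neg (h : Ng d bad F) : Ng d bad fun x => -F x :=
  let ⟨_, h1, h2⟩ := h; ⟨_, h1.neg, fun x hx => by beta_reduce; rw [h2 x hx]⟩

theorem sub (h : Ng d bad F) (h' : Ng d bad F') : Ng d bad fun x => F x - F' x :=
  congr (add h (neg h')) fun _ _ => sub_eq_add_neg _ _

theorem sum {ι : Type} (s : Finset ι) {F : ι → B → U} (h : ∀ i, Ng d bad (F i)) :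
    Ng d bad fun x => ∑ i ∈ s, F i x := by
  choose Q h1 h2 using h
  exact ⟨_, PolyLE.sum s fun i _ => h1 i, fun x hx => sum_congr rfl fun i _ => h2 i x hx⟩

theorem aff (h : Ng d bad F) (φ : B' →+ B) (c : B) {bad' : B' → Prop}
    (e : ∀ x, bad (φ x + c) → bad' x) : Ng d bad' fun x => F (φ x + c) :=
  let ⟨_, h1, h2⟩ := h; ⟨_, h1.aff φ c, fun x hx => h2 _ fun hb => hx (e x hb)⟩

theorem shift (h : Ng d bad F) (c : B) {bad' : B → Prop} (e : ∀ x, bad (x + c) → bad' x) :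
    Ng d bad' fun x => F (x + c) :=
  aff h (AddMonoidHom.id B) c e

/-- The periods at which a cocycle is trivial. -/
def triv {Λ : AddSubgroup B} {D : B → B → U} (h : Coc bad Λ D) : AddSubgroup B where
  carrier := {ω | ω ∈ Λ ∧ Ng 2 bad (D ω)}
  zero_mem' := ⟨Λ.zero_mem, congr (neg (h.add 0 Λ.zero_mem 0 Λ.zero_mem)) fun x _ => by simp⟩
  add_mem' := fun {ω ω'} h1 h2 => ⟨Λ.add_mem h1.1 h2.1,
    congr (add (add (h.add ω h1.1 ω' h2.1) h1.2) (shift h2.2 ω fun x => (h.bad_iff ω h1.1 x).1))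
      fun x _ => by abel⟩
  neg_mem' := fun {ω} h1 => ⟨Λ.neg_mem h1.1,
    congr (sub (neg (add (h.add 0 Λ.zero_mem 0 Λ.zero_mem) (h.add _ (Λ.neg_mem h1.1) ω h1.1)))
      (shift h1.2 (-ω) fun x => (h.bad_iff _ (Λ.neg_mem h1.1) x).1)) fun x _ => by
        simp only [add_zero, neg_add_cancel]; abel⟩

theorem nsmul {Λ : AddSubgroup B} {D : B → B → U} (h : Coc bad Λ D) {ω : B} (hω : ω ∈ Λ) (n : ℕ) :
    Ng 2 bad fun x => D (n • ω) x - ∑ i ∈ range n, D ω (x + i • ω) := by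
  induction n with
  | zero => simpa using (triv h).zero_mem.2
  | succ n ih =>
    refine congr (add ih (h.add _ (Λ.nsmul_mem hω n) ω hω)) fun x _ => ?_
    rw [sum_range_succ, succ_nsmul]
    abel

end Calc

variable {M : AddSubgroup ℂ} {ϑ : ℂ → ℂ}

theorem ord (h : IsTh M ϑ) (c z : ℂ) :
    analyticOrderAt (fun z => ϑ (z + c)) z = if z + c ∈ M then 1 else 0 := by
  have hd : Differentiable ℂ fun z => ϑ (z + c) := h.diff.comp (by fun_prop)
  split_ifs with hz
  · refine (hd.analyticAt z).analyticOrderAt_eq_one_of_zero_deriv_ne_zero ((h.zero_iff _).2 hz) ?_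
    obtain ⟨η, k, e⟩ := h.qp _ hz
    have h2 := congrArg (deriv · 0) (funext e)
    simp only [deriv_comp_add_const, zero_add] at h2
    rw [deriv_comp_add_const, h2, deriv_fun_mul (by fun_prop) (h.diff 0),
      (h.zero_iff 0).2 M.zero_mem]
    simpa using h.simple
  · exact (hd.analyticAt z).analyticOrderAt_eq_zero.2 fun e => hz ((h.zero_iff _).1 e)

theorem ord_prod {ι : Type} (h : IsTh M ϑ) (s : Finset ι) (c : ι → ℂ) (z : ℂ) :
    analyticOrderAt (fun z => ∏ i ∈ s, ϑ (z + c i)) z = (s.filter fun i => z + c i ∈ M).card := by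
  have hd := h.diff
  induction s using Finset.induction_on with
  | empty => simp [analyticOrderAt_eq_zero]
  | insert i s hi ih =>
    simp only [prod_insert hi]
    have := analyticOrderAt_mul (f := fun z => ϑ (z + c i)) (g := fun z => ∏ i ∈ s, ϑ (z + c i))
      (z₀ := z) (Differentiable.analyticAt (by fun_prop) z)
      (Differentiable.analyticAt (by fun_prop) z)
    rw [ih, ord h] at this
    refine Eq.trans this ?_
    rw [filter_insert]
    split_ifs
    · rw [card_insert_of_notMem fun e => hi (mem_filter.1 e).1, add_comm, Nat.cast_succ]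
    · rw [zero_add]

theorem qp_prod {ι : Type} {M' : AddSubgroup ℂ} (h : QP M ϑ) (hM : M' ≤ M) (s : Finset ι)
    (c : ι → ℂ) : QP M' fun z => ∏ i ∈ s, ϑ (z + c i) := fun m hm => by
  obtain ⟨η, k, e⟩ := h m (hM hm)
  refine ⟨s.card * η, ∑ i ∈ s, (η * c i + k), fun z => ?_⟩
  simp only [add_right_comm z m, e, prod_mul_distrib, ← Complex.exp_sum]
  congr 2
  simp only [mul_add, add_assoc, sum_add_distrib, sum_const, nsmul_eq_mul, mul_assoc]

theorem card_one {ι : Type} {s : Finset ι} {P : Prop} (h1 : P → ∃ i, i ∈ s)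
    (h2 : ∀ i ∈ s, P) (h3 : ∀ i ∈ s, ∀ j ∈ s, i = j) : s.card = if P then 1 else 0 := by
  split_ifs with h
  · obtain ⟨i, hi⟩ := h1 h
    exact card_eq_one.2 ⟨i, eq_singleton_iff_unique_mem.2 ⟨hi, fun j hj => h3 j hj i hi⟩⟩
  · exact card_eq_zero.2 (eq_empty_of_forall_notMem fun i hi => h (h2 i hi))

theorem int_eq {r : ℚ} (h : ∃ k : ℤ, r = k) (h1 : -1 < r) (h2 : r < 1) : r = 0 := by
  obtain ⟨k, rfl⟩ := h
  have h3 : -1 < k := by exact_mod_cast h1
  have h4 : k < 1 := by exact_mod_cast h2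
  rw [show k = 0 by omega, Int.cast_zero]

end Dt

open Dt in
theorem dt_thm (hth : H_TH) (htq : H_TQ) : H_DT := by
  intro L L' a a' T T' n I _ τ hF hF' hT hT' hL hn ha h1 h2 h3 h4 l hl
  have hn' : (0 : ℚ) < n := by exact_mod_cast Nat.pos_of_ne_zero hn
  have hb : ∀ {c : ℂ}, c ∈ L' → ∀ x, x + c ∈ L → x ∈ L' := fun hc x hx =>
    (L'.add_mem_cancel_right hc).1 (hL hx)
  have coc : Coc (· ∈ L') L fun l z => ∑ j, T l (z + τ j) - T' l z :=
    ⟨fun ω hω x => L'.add_mem_cancel_right (hL hω), fun ω hω ω' hω' =>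
      congr (sub (sum univ fun j => shift (hT.coc.add ω hω ω' hω') (τ j) (hb (h1 j)))
        (hT'.coc.add ω (hL hω) ω' (hL hω'))) fun x _ => by
          simp only [sum_sub_distrib, add_right_comm x ω]; abel⟩
  have ker : ∀ m ∈ L, a m = 0 → m ∈ triv coc := fun m hm h0 =>
    ⟨hm, sub (sum univ fun j => shift (hT.ker m hm h0) (τ j) (hb (h1 j)))
      (hT'.ker m (hL hm) (by rw [ha, h0, mul_zero]))⟩
  obtain ⟨l₀, hl₀, al₀⟩ := hF.one
  obtain ⟨l₁, hl₁, al₁⟩ := hF'.one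
  obtain ⟨k, hk⟩ := hF.int l hl
  suffices h : l₀ ∈ triv coc by
    have := (triv coc).add_mem ((triv coc).zsmul_mem h k) (ker (l - k • l₀)
      (L.sub_mem hl (L.zsmul_mem hl₀ k)) (by rw [map_sub, map_zsmul, hk, al₀]; simp))
    rw [add_sub_cancel] at this
    exact this.2
  obtain ⟨γ, β, hγ, hM⟩ := hF.lat
  obtain ⟨γ', β', hγ', hM'⟩ := hF'.lat
  have t := hth _ γ β hγ hM
  have t' := hth _ γ' β' hγ' hM'
  generalize (fun z => th0 (z / γ) (β / γ)) = ϑ at t
  generalize (fun z => th0 (z / γ') (β' / γ')) = ϑ' at t'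
  have hd := t.diff
  have hd' := t'.diff
  have ne' : ∀ z, z ∉ L' → ∀ i : ℕ, ϑ' (z + (i + 1) • l₁) ≠ 0 := fun z hz i e =>
    hz ((L'.add_mem_cancel_right (L'.nsmul_mem hl₁ _)).1 ((t'.zero_iff _).1 e).1)
  obtain ⟨Q, hQ, e⟩ := htq (L ⊓ a.ker) (fun z => ∏ j, ϑ (z + (τ j + l₀)))
    (fun z => ∏ i ∈ range n, ϑ' (z + (i + 1) • l₁))
    ⟨γ, (hM _).2 ⟨1, 0, by simp⟩, β, (hM _).2 ⟨0, 1, by simp⟩, hγ.ne'⟩ (by fun_prop) (by fun_prop)
    (qp_prod t.qp le_rfl _ _) (qp_prod (M' := L ⊓ a.ker) t'.qp (fun m hm => ⟨hL hm.1, by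
      have : a m = 0 := hm.2
      change a' m = 0
      rw [ha, this, mul_zero]⟩) _ _)
    (fun z => by
      rw [ord_prod t, ord_prod t',
        card_one (P := z ∈ L' ∧ -(n : ℚ) ≤ a' z ∧ a' z < 0) (fun h => ?_) (fun j hj => ?_)
          fun i hi j hj => h2 i j ?_,
        card_one (P := z ∈ L' ∧ -(n : ℚ) ≤ a' z ∧ a' z < 0) (fun h => ?_) (fun j hj => ?_)
          fun i hi j hj => ?_]
      · obtain ⟨i, hi⟩ := hF'.int z h.1
        obtain ⟨j, hj⟩ := Int.eq_ofNat_of_zero_le (a := -i - 1) (by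
          have : i < 0 := by exact_mod_cast hi ▸ h.2.2
          omega)
        have hj' : (i : ℚ) = -j - 1 := by rw [show i = -j - 1 by omega]; push_cast; ring
        refine ⟨j, mem_filter.2 ⟨mem_range.2 ?_, L'.add_mem h.1 (L'.nsmul_mem hl₁ _), ?_⟩⟩
        · exact_mod_cast (by linarith [h.2.1] : (j : ℚ) < n)
        · change a' _ = 0
          rw [map_add, map_nsmul, al₁, hi, hj']
          simp
      · obtain ⟨j1, j2, j3⟩ := mem_filter.1 hj
        have j4 : a' _ = 0 := j3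
        have j5 : (j : ℚ) + 1 ≤ n := by exact_mod_cast mem_range.1 j1
        rw [map_add, map_nsmul, al₁, nsmul_eq_mul, Nat.cast_succ] at j4
        exact ⟨(L'.add_mem_cancel_right (L'.nsmul_mem hl₁ _)).1 j2, by linarith,
          by linarith [Nat.cast_nonneg (α := ℚ) j]⟩
      · have i4 : a' _ = 0 := (mem_filter.1 hi).2.2
        have j4 : a' _ = 0 := (mem_filter.1 hj).2.2
        rw [map_add, map_nsmul, al₁, nsmul_eq_mul, Nat.cast_succ] at i4 j4
        exact_mod_cast (by linarith : (i : ℚ) = j)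
      · obtain ⟨j, hj⟩ := h3 _ (L'.neg_mem h.1)
        have hj' : z + (τ j + l₀) ∈ L := by
          have := L.sub_mem hl₀ hj
          rwa [show l₀ - (-z - τ j) = z + (τ j + l₀) by ring] at this
        have e := ha (z + (τ j + l₀))
        rw [map_add a', map_add a', ha l₀, al₀] at e
        refine ⟨j, mem_filter.2 ⟨mem_univ _, hj', int_eq (hF.int _ hj') ?_ ?_⟩⟩ <;>
          apply lt_of_mul_lt_mul_left _ hn'.le <;> linarith [h4 j, h.2.1, h.2.2]
      · obtain ⟨j2, j3⟩ := (mem_filter.1 hj).2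
        have j4 : a _ = 0 := j3
        have e := ha (z + (τ j + l₀))
        rw [j4, map_add a', map_add a', ha l₀, al₀] at e
        exact ⟨hb (L'.add_mem (h1 j) (hL hl₀)) z j2, by linarith [h4 j], by linarith [h4 j]⟩
      · have := L.sub_mem (mem_filter.1 hi).2.1 (mem_filter.1 hj).2.1
        rwa [show z + (τ i + l₀) - (z + (τ j + l₀)) = τ i - τ j by ring] at this)
    ⟨l₁, prod_ne_zero_iff.2 fun i _ e => by
      have : a' _ = 0 := ((t'.zero_iff _).1 e).2
      rw [map_add, map_nsmul, al₁, nsmul_eq_mul, Nat.cast_succ] at this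
      linarith [Nat.cast_nonneg (α := ℚ) i]⟩
  have hm : l₀ - n • l₁ ∈ L' := L'.sub_mem (hL hl₀) (L'.nsmul_mem hl₁ n)
  have n1 := sum univ fun j => shift (hT.one ϑ t l₀ hl₀ al₀) (τ j) (hb (h1 j))
  have n2 := sum (range n) fun i => shift (hT'.one ϑ' t' l₁ hl₁ al₁) (i • l₁)
    (bad' := (· ∈ L')) fun x => (L'.add_mem_cancel_right (L'.nsmul_mem hl₁ i)).1
  have n3 := nsmul hT'.coc hl₁ n
  have n4 := hT'.coc.add _ (L'.nsmul_mem hl₁ n) _ hm
  have n5 := shift (hT'.ker _ hm (by rw [map_sub, map_nsmul, ha, al₀, al₁]; simp)) (n • l₁)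
    (bad' := (· ∈ L')) fun x => (L'.add_mem_cancel_right (L'.nsmul_mem hl₁ n)).1
  refine ⟨hl₀, congr (add (sub (sub (sub (sub n1 n2) n3) n4) n5) ⟨Q, hQ, fun _ _ => rfl⟩)
    fun z hz => ?_⟩
  have e1 := congrArg lg (e z)
  rw [lg_mul (ex_ne _) (prod_ne_zero_iff.2 fun i _ => ne' z hz i), lg_ex,
    lg_prod _ fun i _ => ne' z hz i, lg_prod _ fun j _ e => hz
      (hb (L'.add_mem (h1 j) (hL hl₀)) z ((t.zero_iff _).1 e).1)] at e1
  simp only [sum_sub_distrib, add_sub_cancel, add_assoc z, ← succ_nsmul, e1]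
  abel

end Pool.Agent.P.MP_29cb78_nt.H
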