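import Pool.Agent.P.MP_29cb78_nt.H.Basic

/-!
The chain rule, the independence of the form and the distribution relation.
-/

namespace Pool.Agent.P.MP_29cb78_nt.H

open Filter Topology E E2
open scoped Classical

noncomputable section

variable {B : Type} [AddCommGroup B]

/-- A meromorphic function on the lines with the multipliers `D`. -/
structure Nice (ι : ℂ →+ B) (bad : B → Prop) (Λ : AddSubgroup B) (f : B → ℂ) (D : B → B → U) :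
    Prop where
  inv : ∀ ω ∈ Λ, ∀ x, bad (x + ω) ↔ bad x
  mer : ∀ x, MeromorphicAt (fun z => f (x + ι z)) 0
  reg : ∀ x, ¬ bad x → AnalyticAt ℂ (fun z => f (x + ι z)) 0 ∧ f x ≠ 0
  sh : ∀ ω ∈ Λ, Ng 2 bad fun x => lg (f (x + ω)) - lg (f x) - D ω x

namespace Nice

variable {ι : ℂ →+ B} {bad : B → Prop} {Λ : AddSubgroup B} {f g : B → ℂ} {D D' : B → B → U}

theorem mul (h : Nice ι bad Λ f D) (h' : Nice ι bad Λ g D') :
    Nice ι bad Λ (fun x => f x * g x) fun ω x => D ω x + D' ω x :=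
  ⟨h.inv, fun x => (h.mer x).mul (h'.mer x), fun x hx => ⟨(h.reg x hx).1.mul (h'.reg x hx).1,
    mul_ne_zero (h.reg x hx).2 (h'.reg x hx).2⟩, fun ω hω =>
    ((h.sh ω hω).add (h'.sh ω hω)).congr fun x hx => by
      have hx' := mt (h.inv ω hω x).1 hx
      rw [lg_mul (h.reg x hx).2 (h'.reg x hx).2, lg_mul (h.reg _ hx').2 (h'.reg _ hx').2]
      abel⟩

theorem div (h : Nice ι bad Λ f D) (h' : Nice ι bad Λ g D') :
    Nice ι bad Λ (fun x => f x / g x) fun ω x => D ω x - D' ω x :=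
  ⟨h.inv, fun x => (h.mer x).div (h'.mer x), fun x hx => ⟨(h.reg x hx).1.div (h'.reg x hx).1
    (by simpa using (h'.reg x hx).2), div_ne_zero (h.reg x hx).2 (h'.reg x hx).2⟩, fun ω hω =>
    ((h.sh ω hω).sub (h'.sh ω hω)).congr fun x hx => by
      have hx' := mt (h.inv ω hω x).1 hx
      rw [lg_div (h.reg x hx).2 (h'.reg x hx).2, lg_div (h.reg _ hx').2 (h'.reg _ hx').2]
      abel⟩

theorem prod {I : Type} {f : I → B → ℂ} {D : I → B → B → U}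
    (hb : ∀ ω ∈ Λ, ∀ x, bad (x + ω) ↔ bad x) (s : Finset I)
    (h : ∀ i ∈ s, Nice ι bad Λ (f i) (D i)) :
    Nice ι bad Λ (fun x => ∏ i ∈ s, f i x) fun ω x => ∑ i ∈ s, D i ω x := by
  induction s using Finset.induction_on with
  | empty =>
    exact ⟨hb, fun _ => by simp,
      fun _ _ => by simpa using analyticAt_const, fun _ _ => Ng.of_zero fun _ _ => by simp⟩
  | insert i s hi ih =>
    simpa only [Finset.prod_insert hi, Finset.sum_insert hi] using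
      (h i (Finset.mem_insert_self _ _)).mul (ih fun j hj => h j (Finset.mem_insert_of_mem hj))

theorem cmp (hcmp : H_CMP) (h : Nice ι bad Λ f D) (h0 : ∀ ω ∈ Λ, Ng 2 bad (D ω))
    (h1 : ∀ x, {z | bad (x + ι z)}.Countable) (h2 : ∀ x, ∃ z, x - ι z ∈ Λ)
    (h3 : ∃ᶠ z in 𝓝[≠] (0 : ℂ), ι z ∈ Λ) : Ng 3 bad fun x => lg (f x) :=
  hcmp B ι bad f Λ h.mer h.reg h1 h.inv
    (fun ω hω => ((h.sh ω hω).add (h0 ω hω)).congr fun x _ => by abel) h2 h3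

/-- The values on the edges. -/
theorem edge (hsh : H_SH) {S : F.Setup} {G : S.A → ℂ} {T : ℂ → ℂ → U} (hG : S.GH G)
    (hT : IsT S.L S.a T) (hb : ∀ ω ∈ Λ, ∀ x, bad (x + ω) ↔ bad x) (φ₁ φ₂ : B →+ ℂ) (c₁ c₂ κ : ℂ)
    (hφ : ∀ x, φ₁ x + c₁ - S.ε * (φ₂ x + c₂) ∈ S.L)
    (hι : ∀ z, φ₁ (ι z) = S.ε * (κ * z) ∧ φ₂ (ι z) = κ * z)
    (hΛ : ∀ ω ∈ Λ, φ₁ ω ∈ S.L ∧ φ₂ ω ∈ S.L) (hbad : ∀ x, φ₁ x + c₁ ∈ S.L → bad x) :
    Nice ι bad Λ (fun x => S.ed G (φ₁ x + c₁) (φ₂ x + c₂))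
      fun ω x => T (φ₁ ω) (φ₁ x + c₁) - T (φ₂ ω) (φ₂ x + c₂) := by
  have e : ∀ x, (fun z => S.ed G (φ₁ (x + ι z) + c₁) (φ₂ (x + ι z) + c₂)) =
      fun z => S.ed G (φ₁ x + c₁ + S.ε * (κ * z)) (φ₂ x + c₂ + κ * z) := fun x => by
    funext z
    rw [map_add, map_add, (hι z).1, (hι z).2, add_right_comm _ _ c₁, add_right_comm _ _ c₂]
  refine ⟨hb, fun x => ?_, fun x hx => ⟨?_, ed_ne hG (hφ x) (mt (hbad x) hx)⟩, fun ω hω => ?_⟩
  · rw [e]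
    exact ed_mer hG (hφ x) κ
  · rw [e]
    exact ed_an hG (hφ x) (mt (hbad x) hx) κ
  · refine ((hsh S G T hG hT B φ₁ φ₂ c₁ c₂ _ _ hφ (hΛ ω hω).1 (hΛ ω hω).2).anti hbad).congr
      fun x _ => ?_
    rw [map_add, map_add, add_right_comm _ _ c₁, add_right_comm _ _ c₂]

theorem edge₀ (hsh : H_SH) {S : F.Setup} {G : S.A → ℂ} {T : ℂ → ℂ → U} (hG : S.GH G)
    (hT : IsT S.L S.a T) (hb : ∀ ω ∈ Λ, ∀ x, bad (x + ω) ↔ bad x) (φ₁ φ₂ : B →+ ℂ) (κ : ℂ)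
    (hφ : ∀ x, φ₁ x - S.ε * φ₂ x ∈ S.L)
    (hι : ∀ z, φ₁ (ι z) = S.ε * (κ * z) ∧ φ₂ (ι z) = κ * z)
    (hΛ : ∀ ω ∈ Λ, φ₁ ω ∈ S.L ∧ φ₂ ω ∈ S.L) (hbad : ∀ x, φ₁ x ∈ S.L → bad x) :
    Nice ι bad Λ (fun x => S.ed G (φ₁ x) (φ₂ x))
      fun ω x => T (φ₁ ω) (φ₁ x) - T (φ₂ ω) (φ₂ x) := by
  simpa only [add_zero] using edge hsh hG hT hb φ₁ φ₂ 0 0 κ (by simpa only [add_zero] using hφ)
    hι hΛ (by simpa only [add_zero] using hbad)

/-- The mixing function. -/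
theorem mix {L : AddSubgroup ℂ} {D : ℂ → ℂ → U} {K : ℂ → ℂ} (hK : IsK L D K)
    (hb : ∀ ω ∈ Λ, ∀ x, bad (x + ω) ↔ bad x) (φ : B →+ ℂ) (κ : ℂ) (hι : ∀ z, φ (ι z) = κ * z)
    (hΛ : ∀ ω ∈ Λ, φ ω ∈ L) (hbad : ∀ x, φ x ∈ L → bad x) :
    Nice ι bad Λ (fun x => K (φ x)) fun ω x => D (φ ω) (φ x) := by
  have e : ∀ x, (fun z => K (φ (x + ι z))) = K ∘ fun z => φ x + κ * z := fun x => by
    funext z
    rw [map_add, hι, Function.comp]
  refine ⟨hb, fun x => ?_, fun x hx => ⟨?_, (hK.reg _ (mt (hbad x) hx)).2⟩, fun ω hω => ?_⟩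
  · rw [e]
    exact (hK.mer _).comp_analyticAt (by fun_prop)
  · rw [e]
    exact AnalyticAt.comp_of_eq (hK.reg _ (mt (hbad x) hx)).1 (by fun_prop) (by simp)
  · exact ((hK.sh _ (hΛ ω hω)).pre φ hbad).congr fun x _ => by rw [map_add]

end Nice

/-- The comparison principle on the group of a setup. -/
theorem cmp_A (hcmp : H_CMP) (S : F.Setup) {L' : AddSubgroup ℂ} (hc : (L' : Set ℂ).Countable)
    {f : S.A → ℂ} {D : S.A → S.A → U}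
    (h : Nice S.ι (fun x => S.x₁ x ∈ L') (S.L.comap S.x₁) f D)
    (h0 : ∀ ω, S.Lat ω → Ng 2 (fun x => S.x₁ x ∈ L') (D ω)) :
    Ng 3 (fun x => S.x₁ x ∈ L') fun x => lg (f x) := by
  refine h.cmp hcmp h0 (fun x => ?_) (fun x => ⟨S.x₂ x, ?_⟩) ((acc S).mono fun z hz => ?_)
  · refine (hc.preimage_of_injOn (f := fun z => S.x₁ x + S.ε * z) fun _ _ _ _ e =>
      mul_left_cancel₀ S.ε_ne (add_left_cancel e)).mono fun z hz => ?_
    simpa using hz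
  · simpa using S.diff_mem x
  · simpa using S.mul_mem hz

/-- The diagonal line through a fixed class. -/
def diag (S : F.Setup) (v : ℂ) : ℤ →+ S.A := zmultiplesHom _ (S.pt v v)

theorem x_diag (S : F.Setup) {v : ℂ} (hv : (S.ε - 1) * v ∈ S.L) (t : ℤ) :
    S.x₁ (diag S v t) = t * v ∧ S.x₂ (diag S v t) = t * v := by
  have h : v - S.ε * v ∈ S.L := by convert S.L.neg_mem hv using 1; ring
  simp [diag, S.x₁_pt h, S.x₂_pt h]

theorem coc_of (hcmp : H_CMP) (htex : H_TEX) (hsh : H_SH) : F.S_COC := by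
  intro S₁ S₂ S₃ G₁ G₂ G₃ h₁ h₂ h₃ L₂ L₃ a₂ a₃ hε x₀ x₁ x₂ hx₀ hx₁
  obtain ⟨T, hT⟩ := htex _ _ (fm S₁)
  let φ₂ : ℂ × S₁.L × S₁.L →+ ℂ := AddMonoidHom.fst _ _
  let φ₁ : ℂ × S₁.L × S₁.L →+ ℂ := (AddMonoidHom.mulLeft S₂.ε).comp φ₂ +
    S₁.L.subtype.comp ((AddMonoidHom.snd _ _).comp (AddMonoidHom.snd _ _))
  let φ₀ : ℂ × S₁.L × S₁.L →+ ℂ := (AddMonoidHom.mulLeft S₁.ε).comp φ₁ +
    S₁.L.subtype.comp ((AddMonoidHom.fst _ _).comp (AddMonoidHom.snd _ _))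
  have e₁ : ∀ x, φ₁ x - S₂.ε * φ₂ x ∈ S₁.L := fun x => by
    convert x.2.2.2 using 1; simp [φ₁]
  have e₀ : ∀ x, φ₀ x - S₁.ε * φ₁ x ∈ S₁.L := fun x => by
    convert x.2.1.2 using 1; simp [φ₀]
  have m₂ : ∀ z, S₂.ε * z ∈ S₁.L ↔ z ∈ S₁.L := fun z => by rw [← L₂]; exact S₂.ε_mul z
  have i₁ : ∀ x, φ₁ x ∈ S₁.L ↔ φ₂ x ∈ S₁.L := fun x => by
    rw [← m₂ (φ₂ x)]
    exact ⟨fun h => by simpa using S₁.L.sub_mem h (e₁ x), fun h => by
      simpa using S₁.L.add_mem h (e₁ x)⟩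
  have i₀ : ∀ x, φ₀ x ∈ S₁.L ↔ φ₁ x ∈ S₁.L := fun x => by
    rw [← S₁.ε_mul (φ₁ x)]
    exact ⟨fun h => by simpa using S₁.L.sub_mem h (e₀ x), fun h => by
      simpa using S₁.L.add_mem h (e₀ x)⟩
  have hb : ∀ ω ∈ S₁.L.comap φ₀, ∀ x, φ₀ (x + ω) ∈ S₁.L ↔ φ₀ x ∈ S₁.L := fun ω hω x => by
    rw [map_add]; exact S₁.L.add_mem_cancel_right hω
  have n₃ := Nice.edge₀ (ι := AddMonoidHom.inl _ _) hsh h₃ (L₃ ▸ a₃ ▸ hT) hb φ₀ φ₂ 1
    (fun x => by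
      rw [L₃, hε]
      convert S₁.L.add_mem (e₀ x) (S₁.mul_mem (e₁ x)) using 1
      ring)
    (fun z => by simp [φ₀, φ₁, φ₂, hε, mul_assoc])
    (fun ω hω => by rw [L₃]; exact ⟨hω, (i₁ ω).1 ((i₀ ω).1 hω)⟩) fun x hx => L₃ ▸ hx
  have n₁ := Nice.edge₀ (ι := AddMonoidHom.inl _ _) hsh h₁ hT hb φ₀ φ₁ S₂.ε e₀
    (fun z => by simp [φ₀, φ₁, φ₂]) (fun ω hω => ⟨hω, (i₀ ω).1 hω⟩) fun x hx => hx
  have n₂ := Nice.edge₀ (ι := AddMonoidHom.inl _ _) hsh h₂ (L₂ ▸ a₂ ▸ hT) hb φ₁ φ₂ 1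
    (fun x => by rw [L₂]; exact e₁ x) (fun z => by simp [φ₁, φ₂])
    (fun ω hω => by rw [L₂]; exact ⟨(i₀ ω).1 hω, (i₁ ω).1 ((i₀ ω).1 hω)⟩)
    fun x hx => (i₀ x).2 (by rwa [L₂] at hx)
  have key := (n₃.div (n₁.mul n₂)).cmp hcmp (fun ω _ => Ng.of_zero fun x _ => by abel)
    (fun x => by
      refine (countable_line S₁ (φ₀ x) (mul_ne_zero S₁.ε_ne S₂.ε_ne)).mono fun z hz => ?_
      have : φ₀ (AddMonoidHom.inl _ _ z) = S₁.ε * S₂.ε * z := by simp [φ₀, φ₁, φ₂, mul_assoc]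
      rwa [Set.mem_ofPred_eq, map_add, this] at hz)
    (fun x => ⟨φ₂ x, (i₀ _).2 ((i₁ _).2 (by simp [φ₂]))⟩)
    ((acc S₁).mono fun z hz => (i₀ _).2 ((i₁ _).2 (by simpa [φ₂] using hz)))
  let y : ℂ × S₁.L × S₁.L := (x₂, ⟨_, hx₀⟩, ⟨_, hx₁⟩)
  have y₂ : ∀ t : ℤ, φ₂ (zmultiplesHom _ y t) = t * x₂ := fun t => by simp [φ₂, y]
  have y₁ : ∀ t : ℤ, φ₁ (zmultiplesHom _ y t) = t * x₁ := fun t => by
    rw [zmultiplesHom_apply, map_zsmul]; simp [φ₁, φ₂, y]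
  have y₀ : ∀ t : ℤ, φ₀ (zmultiplesHom _ y t) = t * x₀ := fun t => by
    rw [zmultiplesHom_apply, map_zsmul]; simp [φ₀, φ₁, φ₂, y]
  have r : ∀ t : ℤ, t * x₀ ∉ S₁.L → S₃.ed G₃ (t * x₀) (t * x₂) ≠ 0 ∧
      S₁.ed G₁ (t * x₀) (t * x₁) * S₂.ed G₂ (t * x₁) (t * x₂) ≠ 0 := fun t ht => by
    have h3 := (n₃.reg (zmultiplesHom _ y t) (by rwa [y₀])).2
    have h4 := ((n₁.mul n₂).reg (zmultiplesHom _ y t) (by rwa [y₀])).2
    rw [y₀, y₂] at h3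
    rw [y₀, y₁, y₂] at h4
    exact ⟨h3, h4⟩
  refine Ng.cub (bad := fun t => t * x₀ ∈ S₁.L)
    ((key.pre (zmultiplesHom _ y) fun t ht => by rwa [y₀] at ht).congr fun t ht => ?_) r
  rw [y₀, y₁, y₂, lg_div (r t ht).1 (r t ht).2]

theorem ind_of (hcmp : H_CMP) (htex : H_TEX) (hsh : H_SH) (hmix : H_MIX) : F.S_IND := by
  intro S S' G G' α hG hG' hε hα hL hrel v hv
  obtain ⟨T, hT⟩ := htex _ _ (fm S)
  obtain ⟨T', hT'⟩ := htex _ _ (fm S')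
  obtain ⟨K, hK⟩ := hmix _ _ _ _ _ (fm S) ((fm S').scale hα hL) hrel hT (hT'.scale hα hL)
  have hb : ∀ ω ∈ S.L.comap S.x₁, ∀ x, S.x₁ (x + ω) ∈ S.L ↔ S.x₁ x ∈ S.L := fun ω hω x =>
    S.lat_add_iff hω
  have n := Nice.edge₀ (ι := S.ι) hsh hG hT hb S.x₁ S.x₂ 1 S.diff_mem (fun z => by simp)
    (fun ω hω => ⟨hω, S.lat_iff.1 hω⟩) fun x hx => hx
  have n' := Nice.edge₀ (ι := S.ι) hsh hG' hT' hb ((AddMonoidHom.mulLeft α).comp S.x₁)
    ((AddMonoidHom.mulLeft α).comp S.x₂) α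
    (fun x => by
      convert (hL _).2 (S.diff_mem x) using 1
      simp [hε]
      ring)
    (fun z => by simp [hε]; ring) (fun ω hω => ⟨(hL _).2 hω, (hL _).2 (S.lat_iff.1 hω)⟩)
    fun x hx => (hL _).1 hx
  have k₁ := Nice.mix (ι := S.ι) hK hb S.x₁ S.ε (fun z => by simp) (fun ω hω => hω) fun x hx => hx
  have k₂ := Nice.mix (ι := S.ι) hK hb S.x₂ 1 (fun z => by simp) (fun ω hω => S.lat_iff.1 hω)
    fun x hx => S.lat_iff.2 hx
  have key := cmp_A hcmp S (countable_L S) ((n'.mul k₁).div (n.mul k₂))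
    fun ω _ => Ng.of_zero fun x _ => by
      simp only [AddMonoidHom.comp_apply, AddMonoidHom.coe_mulLeft]
      abel
  have d := x_diag S hv
  have r : ∀ t : ℤ, t * v ∉ S.L → S'.ed G' (t * (α * v)) (t * (α * v)) ≠ 0 ∧
      S.ed G (t * v) (t * v) ≠ 0 := fun t ht => by
    have h3 := (n'.reg (diag S v t) (by rwa [(d t).1])).2
    have h4 := (n.reg (diag S v t) (by rwa [(d t).1])).2
    simp only [AddMonoidHom.comp_apply, AddMonoidHom.coe_mulLeft, d t, mul_left_comm α] at h3 h4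
    exact ⟨h3, h4⟩
  refine Ng.cub (bad := fun t => t * v ∈ S.L)
    ((key.pre (diag S v) fun t ht => by rwa [(d t).1] at ht).congr fun t ht => ?_) r
  simp only [AddMonoidHom.comp_apply, AddMonoidHom.coe_mulLeft, d t, mul_left_comm α]
  rw [mul_div_mul_right _ _ (hK.reg _ ht).2, lg_div (r t ht).1 (r t ht).2]

theorem dist_of (hcmp : H_CMP) (htex : H_TEX) (hsh : H_SH) (hdt : H_DT) : F.S_DIST := by
  intro S S' G G' n I _ τ e hG hG' hε hle hn ha hτ hinj hsurj he v hv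
  obtain ⟨T, hT⟩ := htex _ _ (fm S)
  obtain ⟨T', hT'⟩ := htex _ _ (fm S')
  have hn' : (0 : ℚ) < n := by exact_mod_cast Nat.pos_of_ne_zero hn
  let l : I → ℂ := fun j => (⌈S'.a (τ j) / n⌉ : ℤ) * S.lam
  have hl : ∀ j, l j ∈ S.L := fun j => by
    simpa only [zsmul_eq_mul] using S.L.zsmul_mem S.lam_mem _
  let σ : I → ℂ := fun j => τ j - l j
  have hσ : ∀ j, σ j ∈ S'.L := fun j => S'.L.sub_mem (hτ j) (hle (hl j))
  have he' : ∀ j, σ j - S.ε * σ (e j) ∈ S.L := fun j => by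
    convert S.L.add_mem (S.L.sub_mem (he j) (hl j)) (S.mul_mem (hl (e j))) using 1
    simp only [σ]
    ring
  have dt := hdt _ _ _ _ T T' n I σ (fm S) (fm S') hT hT' hle hn ha hσ
    (fun i j h => hinj i j (by
      convert S.L.sub_mem (S.L.add_mem h (hl i)) (hl j) using 1
      simp only [σ]
      ring))
    (fun x hx => (hsurj x hx).imp fun j h => by
      convert S.L.add_mem h (hl j) using 1
      simp only [σ]
      ring)
    fun j => by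
      have h1 : S'.a (σ j) = S'.a (τ j) - ⌈S'.a (τ j) / n⌉ * n := by
        simp only [σ, l, map_sub, S'.a_int_mul, ha S.lam, S.a_lam, mul_one]
      have h2 := (div_le_iff₀ hn').1 (Int.le_ceil (S'.a (τ j) / n))
      have h3 := Int.ceil_lt_add_one (S'.a (τ j) / n)
      rw [← sub_lt_iff_lt_add, lt_div_iff₀ hn'] at h3
      constructor <;> linarith
  have hb : ∀ ω ∈ S.L.comap S.x₁, ∀ x, S.x₁ (x + ω) ∈ S'.L ↔ S.x₁ x ∈ S'.L := fun ω hω x => by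
    rw [map_add]; exact S'.L.add_mem_cancel_right (hle hω)
  have i₂ : ∀ x, S.x₂ x ∈ S'.L → S.x₁ x ∈ S'.L := fun x hx => by
    simpa [hε] using S'.L.add_mem (hle (S.diff_mem x)) (S'.mul_mem hx)
  have nj := fun j => Nice.edge (ι := S.ι) hsh hG hT hb S.x₁ S.x₂ (σ j) (σ (e j)) 1
    (fun x => by
      convert S.L.add_mem (S.diff_mem x) (he' j) using 1
      ring)
    (fun z => by simp) (fun ω hω => ⟨hω, S.lat_iff.1 hω⟩)
    fun x hx => by simpa using S'.L.sub_mem (hle hx) (hσ j)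
  have n' := Nice.edge₀ (ι := S.ι) hsh hG' hT' hb S.x₁ S.x₂ 1
    (fun x => hε ▸ hle (S.diff_mem x)) (fun z => by simp [hε])
    (fun ω hω => ⟨hle hω, hle (S.lat_iff.1 hω)⟩) fun x hx => hx
  have np := Nice.prod hb Finset.univ fun j _ => nj j
  have key := cmp_A hcmp S (countable_L S') (np.div n') fun ω hω =>
    (((dt _ hω).pre S.x₁ fun x hx => hx).sub ((dt _ (S.lat_iff.1 hω)).pre S.x₂ i₂)).congr
      fun x _ => by
        rw [Finset.sum_sub_distrib, Equiv.sum_comp e fun j => T (S.x₂ ω) (S.x₂ x + σ j)]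
        abel
  have d := x_diag S hv
  have hd : ∀ (t : ℤ) j, t * v + σ j - S.ε * (t * v + σ (e j)) ∈ S.L := fun t j => by
    convert S.L.sub_mem (he' j) (S.L.zsmul_mem hv t) using 1
    rw [zsmul_eq_mul]
    ring
  have nb : ∀ (t : ℤ) j, t * v + σ j ∈ S.L → t * v ∈ S'.L := fun t j h => by
    simpa using S'.L.sub_mem (hle h) (hσ j)
  have mv := Ng.sum Finset.univ fun j _ => (hsh S G T hG hT ℤ (zmultiplesHom _ v)
    (zmultiplesHom _ v) (σ j) (σ (e j)) _ _ (by simpa using fun t => hd t j) (hl j)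
    (hl (e j))).anti (bad' := fun t => t * v ∈ S'.L) (by simpa using fun t => nb t j)
  have r₀ : ∀ t : ℤ, t * v ∉ S'.L → ∀ j, S.ed G (t * v + σ j) (t * v + σ (e j)) ≠ 0 :=
    fun t ht j => ed_ne hG (hd t j) (mt (nb t j) ht)
  have r₁ : ∀ t : ℤ, t * v ∉ S'.L → ∀ j, S.ed G (t * v + τ j) (t * v + τ (e j)) ≠ 0 :=
    fun t ht j => ed_ne hG (by
      convert S.L.sub_mem (he j) (S.L.zsmul_mem hv t) using 1
      rw [zsmul_eq_mul]
      ring) fun h => ht (by simpa using S'.L.sub_mem (hle h) (hτ j))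
  have r₂ : ∀ t : ℤ, t * v ∉ S'.L → S'.ed G' (t * v) (t * v) ≠ 0 := fun t ht => by
    simpa only [d t] using (n'.reg (diag S v t) (by rwa [(d t).1])).2
  refine Ng.cub (bad := fun t => t * v ∈ S'.L)
    (((key.pre (diag S v) fun t ht => by rwa [(d t).1] at ht).add (mv.mono (by norm_num))).congr
      fun t ht => ?_) fun t ht => ⟨Finset.prod_ne_zero_iff.2 fun j _ => r₁ t ht j, r₂ t ht⟩
  simp only [d t, zmultiplesHom_apply, zsmul_eq_mul, Finset.sum_sub_distrib]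
  rw [lg_div (Finset.prod_ne_zero_iff.2 fun j _ => r₀ t ht j) (r₂ t ht),
    lg_prod _ fun j _ => r₀ t ht j, lg_prod _ fun j _ => r₁ t ht j,
    Equiv.sum_comp e fun j => T (l j) (t * v + σ j)]
  simp only [σ, add_assoc, sub_add_cancel]
  abel

end

end Pool.Agent.P.MP_29cb78_nt.H
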