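import Pool.Agent.P.MP_29cb78_nt.H.Defs
import Pool.Agent.P.MP_29cb78_nt.F.ThAux1
import Pool.Agent.P.MP_29cb78_nt.F.Dn

/-!
The theta product and the standard elliptic gamma function.
-/

namespace Pool.Agent.P.MP_29cb78_nt.H

open Filter Topology E E2
open scoped Real

namespace Gam

open F.Th

/-- The set of quasi-periods. -/
def per (f : ℂ → ℂ) : AddSubgroup ℂ where
  carrier := {m | ∃ η c : ℂ, ∀ z, f (z + m) = Complex.exp (η * z + c) * f z}
  zero_mem' := ⟨0, 0, fun z => by simp⟩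
  add_mem' := by
    rintro m m' ⟨η, c, h⟩ ⟨η', c', h'⟩
    refine ⟨η + η', η' * m + c' + c, fun z => ?_⟩
    rw [← add_assoc, h', h, ← mul_assoc, ← Complex.exp_add]
    congr 2
    ring
  neg_mem' := by
    rintro m ⟨η, c, h⟩
    refine ⟨-η, η * m - c, fun z => ?_⟩
    have := h (z + -m)
    rw [neg_add_cancel_right] at this
    rw [this, ← mul_assoc, ← Complex.exp_add,
      show -η * z + (η * m - c) + (η * (z + -m) + c) = 0 by ring, Complex.exp_zero, one_mul]

/-- The double product. -/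
noncomputable def Den (τ σ z : ℂ) : ℂ := ∏' ik : ℕ × ℕ, (1 - ee (ik.1 * τ + ik.2 * σ + z))

variable {τ σ : ℂ} (hτ : 0 < τ.im) (hσ : 0 < σ.im)
include hτ hσ

theorem summ2 (z : ℂ) : Summable fun ik : ℕ × ℕ => ‖ee (ik.1 * τ + ik.2 * σ + z)‖ := by
  simp only [ee_add, ee_nat_mul, norm_mul, norm_pow]
  exact ((summable_geometric_of_lt_one (norm_nonneg _) (norm_ee_lt hτ)).mul_of_nonneg
    (summable_geometric_of_lt_one (norm_nonneg _) (norm_ee_lt hσ)) (fun _ => by positivity)
    fun _ => by positivity).mul_right _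

theorem Den_diff : Differentiable ℂ (Den τ σ) := by
  have e : Den τ σ = (fun t : ℂ => ∏' ik : ℕ × ℕ,
      (1 - ee (ik.1 * τ + ik.2 * σ + 0) * t)) ∘ ee := by
    funext z
    simp only [Den, add_zero, Function.comp, ee_add]
  rw [e]
  exact (F.Dn.diff (summ2 hτ hσ 0)).comp ee_diff

theorem Den_ne {z : ℂ} (hz : ¬ ∃ i j k : ℤ, z = i + j * τ + k * σ) : Den τ σ z ≠ 0 := by
  have := tprod_one_add_ne_zero_of_summable (f := fun ik : ℕ × ℕ =>
    -ee (ik.1 * τ + ik.2 * σ + z)) (fun ik e => ?_) (by simpa only [norm_neg] using summ2 hτ hσ z)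
  · simpa only [← sub_eq_add_neg, Den] using this
  · obtain ⟨n, hn⟩ := ee_eq_one.1 (add_neg_eq_zero.1 e).symm
    exact hz ⟨n, -ik.1, -ik.2, by push_cast; linear_combination hn⟩

omit hτ hσ in
theorem Den_int (z : ℂ) (k : ℤ) : Den τ σ (z + k) = Den τ σ z := by
  simp only [Den, ← add_assoc, ee_add_int]

theorem Den_tau (z : ℂ) : Den τ σ z = Den τ σ (z + τ) * G σ z := by
  rw [Den, F.Dn.split (summ2 hτ hσ z), Den, G]
  congr 1
  · refine tprod_congr fun ik => ?_
    push_cast
    congr 2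
    ring
  · simp

theorem Den_sigma (z : ℂ) : Den τ σ z = Den τ σ (z + σ) * G τ z := by
  rw [Den, F.Dn.split' (summ2 hτ hσ z), Den, G]
  congr 1
  · refine tprod_congr fun ik => ?_
    push_cast
    congr 2
    ring
  · simp

end Gam

open F.Th Gam in
theorem th_thm0 : H_TH := by
  intro M γ β h hM
  have hγ : γ ≠ 0 := by
    rintro rfl
    simp at h
  refine ⟨(th0_diff h).comp (differentiable_id.div_const γ), fun z => ?_, ?_, fun m hm => ?_⟩
  · rw [th0_eq_zero h, hM]
    refine exists₂_congr fun j k => ?_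
    rw [div_eq_iff hγ, add_mul, mul_assoc, div_mul_cancel₀ _ hγ]
  · have h1 : HasDerivAt (fun z : ℂ => th0 z (β / γ))
        (-(2 * π * Complex.I) * G (β / γ) (β / γ) ^ 2) (0 / γ) := by
      rw [zero_div]
      exact th0_hasDerivAt h
    have h2 := h1.comp (h := fun z : ℂ => z / γ) 0 ((hasDerivAt_id (0 : ℂ)).div_const γ)
    refine h2.deriv.trans_ne (mul_ne_zero (mul_ne_zero (neg_ne_zero.2 Complex.two_pi_I_ne_zero)
      (pow_ne_zero _ (G_ne h h))) (one_div_ne_zero hγ))
  · obtain ⟨j, k, rfl⟩ := (hM m).1 hm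
    have h1 : γ ∈ per fun z => th0 (z / γ) (β / γ) := ⟨0, 0, fun z => by
      have := th0_int h (z / γ) 1
      rw [Int.cast_one] at this
      simp only [add_div, div_self hγ, this, zero_mul, add_zero, Complex.exp_zero, one_mul]⟩
    have h2 : β ∈ per fun z => th0 (z / γ) (β / γ) :=
      ⟨-(2 * π * Complex.I) / γ, π * Complex.I, fun z => by
        simp only [add_div, th0_tau h, Complex.exp_add, Complex.exp_pi_mul_I, ee]
        rw [mul_neg_one]
        congr 3
        ring⟩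
    have h3 := AddSubgroup.add_mem _ (AddSubgroup.zsmul_mem _ h1 j) (AddSubgroup.zsmul_mem _ h2 k)
    rw [zsmul_eq_mul, zsmul_eq_mul] at h3
    exact h3

open F.Th Gam in
theorem gam_thm : H_GAM := by
  intro τ σ hτ hσ
  have hd := Den_diff hτ hσ
  have a1 : ∀ z, AnalyticAt ℂ (Den τ σ) z := fun z => hd.analyticAt z
  have a2 : ∀ z, AnalyticAt ℂ (fun z => Den τ σ (τ + σ - z)) z := fun z =>
    Differentiable.analyticAt (by fun_prop) z
  refine ⟨fun z => Den τ σ (τ + σ - z) / Den τ σ z,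
    fun z => (a2 z).meromorphicAt.div (a1 z).meromorphicAt, fun z hz => ?_⟩
  have b1 := Den_ne hτ hσ hz
  have b2 : Den τ σ (τ + σ - z) ≠ 0 := Den_ne hτ hσ fun ⟨i, j, k, e⟩ =>
    hz ⟨-i, 1 - j, 1 - k, by push_cast; linear_combination -e⟩
  refine ⟨(a2 z).div (a1 z) b1, div_ne_zero b2 b1, ?_, ?_, ?_⟩
  · have e1 := Den_int (τ := τ) (σ := σ) z 1
    have e2 := Den_int (τ := τ) (σ := σ) (τ + σ - (z + 1)) 1
    rw [Int.cast_one] at e1 e2
    rw [show τ + σ - (z + 1) + 1 = τ + σ - z by ring] at e2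
    simp only [e1, e2]
  · have e1 := Den_tau hτ hσ z
    have e2 := Den_tau hτ hσ (σ - z)
    rw [show σ - z + τ = τ + σ - z by ring] at e2
    rw [e1] at b1
    have c1 := left_ne_zero_of_mul b1
    have c2 := right_ne_zero_of_mul b1
    simp only [show τ + σ - (z + τ) = σ - z by ring]
    rw [th0_eq hσ, e2, e1]
    field_simp
  · have e1 := Den_sigma hτ hσ z
    have e2 := Den_sigma hτ hσ (τ - z)
    rw [show τ - z + σ = τ + σ - z by ring] at e2
    rw [e1] at b1
    have c1 := left_ne_zero_of_mul b1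
    have c2 := right_ne_zero_of_mul b1
    simp only [show τ + σ - (z + σ) = τ - z by ring]
    rw [th0_eq hτ, e2, e1]
    field_simp

end Pool.Agent.P.MP_29cb78_nt.H
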