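import Pool.Agent.P.MP_29cb78_nt.H.Basic

/-!
The mixing function of two forms with the same orientation.
-/

namespace Pool.Agent.P.MP_29cb78_nt.H

open Filter Topology E E2

namespace Mix

variable {L : AddSubgroup ℂ} {a b : ℂ →+ ℚ}

theorem start (ha : Fm L a) (hb : Fm L b) : ∃ s : ℕ, (∀ m ∈ L, a m = 0 → ∃ k : ℤ, b m = k * s) ∧
    ∃ m ∈ L, a m = 0 ∧ b m = s := by
  obtain ⟨γ, β, -, h⟩ := ha.lat
  obtain ⟨x, hx⟩ := hb.int γ ((h _).2 ⟨1, 0, by simp⟩).1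
  obtain ⟨y, hy⟩ := hb.int β ((h _).2 ⟨0, 1, by simp⟩).1
  have e : ∀ j k : ℤ, b (j * γ + k * β) = j * x + k * y := fun j k => by
    rw [← zsmul_eq_mul, ← zsmul_eq_mul, map_add, map_zsmul, map_zsmul, hx, hy, zsmul_eq_mul,
      zsmul_eq_mul]
  refine ⟨Int.gcd x y, fun m hm h0 => ?_, _, ((h _).2 ⟨Int.gcdA x y, Int.gcdB x y, rfl⟩).1,
    ((h _).2 ⟨Int.gcdA x y, Int.gcdB x y, rfl⟩).2, ?_⟩
  · obtain ⟨j, k, rfl⟩ := (h m).1 ⟨hm, h0⟩
    obtain ⟨u, hu⟩ : (Int.gcd x y : ℤ) ∣ j * x + k * y :=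
      ((Int.gcd_dvd_left x y).mul_left j).add ((Int.gcd_dvd_right x y).mul_left k)
    exact ⟨u, by rw [e, mul_comm (u : ℚ)]; exact_mod_cast hu⟩
  · rw [e, mul_comm, mul_comm _ (y : ℚ)]
    exact_mod_cast (Int.gcd_eq_gcd_ab x y).symm

theorem same (ha : Fm L a) (hb : Fm L b) (hr : Rel L a b) (h0 : ∀ m ∈ L, a m = 0 → b m = 0) :
    ∀ l ∈ L, b l = a l := by
  obtain ⟨γ, β, hi, h⟩ := ha.lat
  obtain ⟨c, w, hc, hw⟩ := hr
  have key : ∀ m ∈ L ⊓ a.ker, (w * m).re = 0 := fun m hm => by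
    have := hw m hm.1
    rw [h0 m hm.1 hm.2, show a m = 0 from hm.2] at this
    simpa using this.symm
  have h1 := key γ ((h _).2 ⟨1, 0, by simp⟩)
  have h2 := key β ((h _).2 ⟨0, 1, by simp⟩)
  have hγ : γ ≠ 0 := fun e => by simp [e] at hi
  have w0 : w = 0 := by
    rw [show w * β = w * γ * (β / γ) by field_simp, Complex.mul_re, h1, zero_mul, zero_sub,
      neg_eq_zero, mul_eq_zero] at h2
    exact (mul_eq_zero.1 (Complex.ext h1 (h2.resolve_right hi.ne'))).resolve_right hγ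
  simp only [w0, zero_mul, Complex.zero_re, add_zero] at hw
  obtain ⟨l, hl, e1⟩ := ha.one
  obtain ⟨l', hl', e2⟩ := hb.one
  obtain ⟨k, hk⟩ := hb.int l hl
  obtain ⟨k', hk'⟩ := ha.int l' hl'
  have a1 := hw l hl
  have a2 := hw l' hl'
  rw [hk, e1, Rat.cast_one, mul_one, Rat.cast_intCast] at a1
  rw [hk', e2, ← a1, Rat.cast_one, Rat.cast_intCast] at a2
  have a3 : k = 1 := Int.eq_one_of_mul_eq_one_right (by exact_mod_cast (a1 ▸ hc : (0 : ℝ) < k).le)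
    (by exact_mod_cast a2.symm : k * k' = 1)
  intro z hz
  have := hw z hz
  rw [← a1, a3, Int.cast_one, one_mul] at this
  exact_mod_cast this

theorem base (hth : H_TH) {Ta Tb : ℂ → ℂ → U} (ha : Fm L a) (e : ∀ l ∈ L, b l = a l)
    (hTa : IsT L a Ta) (hTb : IsT L b Tb) : IsK L (fun l z => Ta l z - Tb l z) fun _ => 1 := by
  refine ⟨fun _ => analyticAt_const.meromorphicAt, fun _ _ => ⟨analyticAt_const, one_ne_zero⟩,
    fun l hl => ?_⟩
  obtain ⟨lam, h1, h2⟩ := ha.one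
  obtain ⟨ϑ, hϑ⟩ := ha.theta hth
  have hM : L ⊓ a.ker = L ⊓ b.ker := AddSubgroup.ext fun z => by
    rw [mem_ker, mem_ker]
    exact and_congr_right fun hz => by rw [e z hz]
  refine ((hTa.coc.minus hTb.coc).gen_form ha.int h1 h2
    (fun m hm h0 => (hTa.ker m hm h0).sub (hTb.ker m hm ((e m hm).trans h0)))
    (((hTa.one ϑ hϑ lam h1 h2).sub (hTb.one ϑ (hM ▸ hϑ) lam h1 ((e _ h1).trans h2))).congr
      fun x _ => by abel) l hl).neg.congr fun x _ => ?_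
  abel

theorem trans {D D' D'' : ℂ → ℂ → U} {K K' : ℂ → ℂ} (h : IsK L D K) (h' : IsK L D' K')
    (e : ∀ l z, D'' l z = D l z + D' l z) : IsK L D'' fun z => K z * K' z := by
  refine ⟨fun z => (h.mer z).mul (h'.mer z), fun z hz => ⟨(h.reg z hz).1.mul (h'.reg z hz).1,
    mul_ne_zero (h.reg z hz).2 (h'.reg z hz).2⟩, fun l hl =>
      ((h.sh l hl).add (h'.sh l hl)).congr fun z hz => ?_⟩
  have hz' : z + l ∉ L := fun e => hz ((mem_add_iff le_rfl l hl z).1 e)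
  rw [lg_mul (h.reg _ hz').2 (h'.reg _ hz').2, lg_mul (h.reg z hz).2 (h'.reg z hz).2, e]
  abel

end Mix

open Mix in
theorem mix_thm (hth : H_TH) (htex : H_TEX) (hraw : H_RAW) (hstep : H_STEP) : H_MIX := by
  intro L a b Ta Tb ha hb hr hTa hTb
  obtain ⟨s, h1, h2⟩ := start ha hb
  induction s using Nat.strong_induction_on generalizing a Ta with
  | _ s ih =>
    by_cases hs : s = 0
    · subst hs
      exact ⟨_, base hth ha (same ha hb hr fun m hm h0 => by simpa using h1 m hm h0) hTa hTb⟩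
    · obtain ⟨c, e₁, e₂, γ, s', hc, hr', hlt, g1, g2, g3, g4, g5, g6, g7, g8, g9, g10, g11⟩ :=
        hstep L a b s ha hb hr hs h1 h2
      obtain ⟨Tc, hTc⟩ := htex L c hc
      obtain ⟨K1, hK1⟩ := hraw L a c Ta Tc e₁ e₂ γ g3 g4 g5 g6 g7 g8 g9 g10 g11 hTa hTc
      obtain ⟨K2, hK2⟩ := ih s' hlt c Tc hc hr' hTc g1 g2
      exact ⟨_, Mix.trans hK1 hK2 fun l z => by abel⟩

end Pool.Agent.P.MP_29cb78_nt.H
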