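import Pool.Agent.P.MP_29cb78_nt.H.Basic

/-!
The mixing function of a unimodular pair of forms.
-/

namespace Pool.Agent.P.MP_29cb78_nt.H

open Filter Topology E E2

namespace Raw

theorem val (a : ℂ →+ ℚ) (i j k : ℤ) (x y z : ℂ) :
    a (i * x + j * y + k * z) = i * a x + j * a y + k * a z := by
  rw [← zsmul_eq_mul, ← zsmul_eq_mul, ← zsmul_eq_mul, map_add, map_add, map_zsmul, map_zsmul,
    map_zsmul, zsmul_eq_mul, zsmul_eq_mul, zsmul_eq_mul]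

theorem ker {L : AddSubgroup ℂ} {a : ℂ →+ ℚ} {x y γ : ℂ}
    (hL : ∀ z, z ∈ L ↔ ∃ i j k : ℤ, z = i * x + j * y + k * γ) (hx : a x = 1) (hy : a y = 0)
    (hγ : a γ = 0) (z : ℂ) : z ∈ L ⊓ a.ker ↔ ∃ j k : ℤ, z = j * γ + k * y := by
  rw [mem_ker, hL]
  constructor
  · rintro ⟨⟨i, j, k, rfl⟩, h⟩
    rw [val, hx, hy, hγ] at h
    have : i = 0 := by simpa using h
    exact ⟨k, j, by rw [this]; push_cast; ring⟩
  · rintro ⟨j, k, rfl⟩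
    have e : j * γ + k * y = (0 : ℤ) * x + k * y + j * γ := by push_cast; ring
    exact ⟨⟨0, k, j, e⟩, by rw [e, val, hy, hγ]; simp⟩

end Raw

theorem raw_thm (hth : H_TH) (hgam : H_GAM) : H_RAW := by
  intro L a b Ta Tb e₁ e₂ γ hL a₁ a₂ a₃ b₁ b₂ b₃ h₁ h₂ hTa hTb
  have h₂' : 0 < (-e₂ / γ).im := by rw [neg_div, Complex.neg_im]; linarith
  have hγ : γ ≠ 0 := by
    rintro rfl
    simp at h₁
  obtain ⟨Γ, hm, hΓ⟩ := hgam _ _ h₁ h₂'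
  have m₁ : e₁ ∈ L := (hL _).2 ⟨1, 0, 0, by simp⟩
  have m₂ : e₂ ∈ L := (hL _).2 ⟨0, 1, 0, by simp⟩
  have m₃ : γ ∈ L := (hL _).2 ⟨0, 0, 1, by simp⟩
  have tha := hth (L ⊓ a.ker) γ (-e₂) h₂' (Raw.ker (x := e₁) (fun z => (hL z).trans
    ⟨fun ⟨i, j, k, e⟩ => ⟨i, -j, k, by rw [e]; push_cast; ring⟩,
      fun ⟨i, j, k, e⟩ => ⟨i, -j, k, by rw [e]; push_cast; ring⟩⟩) a₁ (by simp [a₂]) a₃)
  have thb := hth (L ⊓ b.ker) γ e₁ h₁ (Raw.ker (x := e₂) (fun z => (hL z).trans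
    ⟨fun ⟨i, j, k, e⟩ => ⟨j, i, k, by rw [e]; ring⟩,
      fun ⟨i, j, k, e⟩ => ⟨j, i, k, by rw [e]; ring⟩⟩) b₂ b₁ b₃)
  replace hΓ := fun z (hz : z ∉ L) => hΓ (z / γ) fun ⟨i, j, k, e⟩ =>
    hz ((hL z).2 ⟨j, -k, i, by
      rw [div_eq_iff hγ] at e
      rw [e]
      push_cast
      field_simp
      ring⟩)
  have nm : ∀ {z l}, z ∉ L → l ∈ L → z + l ∉ L := fun hz hl h =>
    hz ((mem_add_iff le_rfl _ hl _).1 h)
  refine ⟨fun z => Γ ((z + e₁) / γ), fun z => (hm _).comp_analyticAt (g := fun z => (z + e₁) / γ)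
    (by fun_prop), fun z hz => ⟨(hΓ _ (nm hz m₁)).1.comp (f := fun z => (z + e₁) / γ)
      (by fun_prop), (hΓ _ (nm hz m₁)).2.1⟩, ?_⟩
  refine ((Coc.cob (mem_add_iff le_rfl) fun z => lg (Γ ((z + e₁) / γ))).minus
    (hTa.coc.minus hTb.coc)).gen3 hL ?_ ?_ ?_
  · refine ((hTb.ker e₁ m₁ b₁).sub (hTa.one _ tha e₁ m₁ a₁)).congr fun z hz => ?_
    obtain ⟨-, k0, -, k1, -⟩ := hΓ _ (nm hz m₁)
    rw [add_div (z + e₁), k1, lg_mul (tha.ne fun h => nm hz m₁ h.1) k0]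
    abel
  · have m₄ := L.add_mem m₂ m₁
    refine (((hTb.one _ thb _ m₄ (by simp [b₁, b₂])).sub
      (hTb.coc.add_ker m₂ m₁ (hTb.ker e₁ m₁ b₁))).sub (hTa.ker e₂ m₂ a₂)).congr fun z hz => ?_
    obtain ⟨-, k0, -, -, k1⟩ := hΓ _ (nm hz m₄)
    rw [show (z + e₁) / γ = (z + (e₂ + e₁)) / γ + -e₂ / γ by ring, k1,
      lg_mul (thb.ne fun h => nm hz m₄ h.1) k0, add_assoc z]
    abel
  · refine ((hTb.ker γ m₃ b₃).sub (hTa.ker γ m₃ a₃)).congr fun z hz => ?_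
    rw [show (z + γ + e₁) / γ = (z + e₁) / γ + 1 by field_simp; ring, (hΓ _ (nm hz m₁)).2.2.1]
    abel

end Pool.Agent.P.MP_29cb78_nt.H
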