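import Pool.Agent.P.MP_29cb78_nt.H.Basic

/-!
The multipliers of the values on the edges.
-/

namespace Pool.Agent.P.MP_29cb78_nt.H

open Filter Topology E E2

noncomputable section

namespace Sh

variable {S : F.Setup} {G : S.A → ℂ} {T : ℂ → ℂ → U}

/-- The difference of the two systems of multipliers. -/
def DD (S : F.Setup) (G : S.A → ℂ) (T : ℂ → ℂ → U) (ω x : S.A) : U :=
  (lg (G (x + ω + S.p)) - lg (G (x + S.p))) - (T (S.x₁ ω) (S.x₁ x) - T (S.x₂ ω) (S.x₂ x))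

theorem coc (hT : IsT S.L S.a T) : Coc S.Lat (S.L.comap S.x₁) (DD S G T) := by
  have hb : ∀ ω ∈ S.L.comap S.x₁, ∀ x, S.Lat (x + ω) ↔ S.Lat x :=
    fun ω hω x => S.lat_add_iff hω
  exact (Coc.cob hb fun x => lg (G (x + S.p))).minus
    ((hT.coc.pre S.x₁ (fun ω hω => hω) (fun x hx => hx) hb).minus
      (hT.coc.pre S.x₂ (fun ω hω => S.lat_iff.1 hω) (fun x hx => S.lat_iff.2 hx) hb))

theorem not_pole {x : S.A} (hx : ¬ S.Lat x) : ¬ S.Pole x := fun e => hx (S.pole_iff.1 e).1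

theorem G_ne (hG : S.GH G) {x : S.A} (hx : ¬ S.Lat x) : G x ≠ 0 :=
  hG.ne_zero (not_pole hx) fun e => hx (S.zero_iff.1 e).1

theorem th_ne {z : ℂ} (hz : z ∉ S.L) : S.ϑ (z + S.lam) ≠ 0 :=
  (isTh S).ne fun e => hz ((S.L.add_mem_cancel_right S.lam_mem).1 e.1)

theorem ng_per (hG : S.GH G) (hT : IsT S.L S.a T) {ω : S.A} (hω : ω ∈ S.Ω) :
    Ng 2 S.Lat (DD S G T ω) := by
  obtain ⟨b, l, c, -, h, -⟩ := hG.per ω hω
  have h1 : Ng 2 S.Lat fun x => lg (G (x + ω + S.p)) - lg (G (x + S.p)) :=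
    Ng.of_exp ((poly_quad b l c).shift S.p) fun x hx =>
      ⟨G_ne hG fun e => hx ((S.lat_add_iff S.lat_p).1 e), by rw [add_right_comm, h]⟩
  exact h1.sub (((hT.ker _ hω.1.1 hω.1.2).pre S.x₁ fun x hx => hx).sub
    ((hT.ker _ hω.2.1 hω.2.2).pre S.x₂ fun x hx => S.lat_iff.2 hx))

theorem ng_p (hG : S.GH G) (hT : IsT S.L S.a T) : Ng 2 S.Lat (DD S G T S.p) := by
  refine (((hT.one _ (isTh S) _ S.lam_mem S.a_lam).pre S.x₁ fun x hx => hx).neg.add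
    (hT.coc.zero.pre S.x₂ fun x hx => S.lat_iff.2 hx)).congr fun x hx => ?_
  have h1 : ¬ S.Lat (x + S.p) := fun e => hx ((S.lat_add_iff S.lat_p).1 e)
  rw [DD, hG.shp _ (not_pole h1), map_add, S.x₁_p, S.x₂_p, lg_mul (th_ne hx) (G_ne hG h1)]
  abel

theorem ng_q (hG : S.GH G) (hT : IsT S.L S.a T) : Ng 2 S.Lat (DD S G T (-S.q)) := by
  refine (((hT.one _ (isTh S) _ S.lam_mem S.a_lam).pre S.x₂ fun x hx => S.lat_iff.2 hx).sub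
    (hT.coc.zero.pre S.x₁ fun x hx => hx)).congr fun x hx => ?_
  have h1 : ¬ S.Lat (x + -S.q + S.p) := fun e =>
    hx ((S.lat_add_iff S.lat_q.neg).1 ((S.lat_add_iff S.lat_p).1 e))
  have h2 := hG.shq _ (not_pole h1)
  rw [show x + -S.q + S.p + S.q = x + S.p by abel] at h2
  have h3 : S.x₂ (x + -S.q + S.p) = S.x₂ x + S.lam := by simp
  rw [DD, h2, h3, map_neg, map_neg, S.x₁_q, S.x₂_q, neg_neg, neg_zero,
    lg_mul (th_ne fun e => hx (S.lat_iff.2 e)) (G_ne hG h1)]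
  abel

theorem ng_lat (hG : S.GH G) (hT : IsT S.L S.a T) {ω : S.A} (hω : S.Lat ω) :
    Ng 2 S.Lat (DD S G T ω) := by
  have h := coc (G := G) hT
  have h1 := h.ker.add_mem (h.ker.add_mem
    (h.mem_ker.2 ⟨S.lat_Ω (S.red_mem hω), ng_per hG hT (S.red_mem hω)⟩)
    (h.ker.zsmul_mem (h.mem_ker.2 ⟨S.lat_p, ng_p hG hT⟩) ⌊S.a (S.x₁ ω)⌋))
    (h.ker.zsmul_mem (h.mem_ker.2 ⟨S.lat_q.neg, ng_q hG hT⟩) ⌊S.a (S.x₂ ω)⌋)
  rw [smul_neg, ← sub_eq_add_neg, ← S.eq_red] at h1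
  exact h1.2

end Sh

theorem sh_thm : H_SH := by
  intro S G T hG hT B _ φ₁ φ₂ c₁ c₂ l₁ l₂ h hl₁ hl₂
  have hc : c₁ - S.ε * c₂ ∈ S.L := by simpa using h 0
  have hl : l₁ - S.ε * l₂ ∈ S.L := S.L.sub_mem hl₁ (S.mul_mem hl₂)
  have hφ : ∀ x, (φ₁.prod φ₂) x ∈ S.A := fun x => by
    have := S.L.sub_mem (h x) hc
    change φ₁ x - S.ε * φ₂ x ∈ S.L
    convert this using 1
    ring
  set Φ : B →+ S.A := (φ₁.prod φ₂).codRestrict S.A hφ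
  have e₁ : ∀ x, S.x₁ (Φ x + S.pt c₁ c₂) = φ₁ x + c₁ := fun x => by
    rw [map_add, S.x₁_pt hc]; rfl
  have e₂ : ∀ x, S.x₂ (Φ x + S.pt c₁ c₂) = φ₂ x + c₂ := fun x => by
    rw [map_add, S.x₂_pt hc]; rfl
  have hω : S.Lat (S.pt l₁ l₂) := by rw [F.Setup.Lat, S.x₁_pt hl]; exact hl₁
  refine ((Sh.ng_lat hG hT hω).aff Φ (S.pt c₁ c₂) fun x hx => ?_).congr fun x _ => ?_
  · rwa [F.Setup.Lat, e₁] at hx
  · have h2 : φ₁ x + c₁ + l₁ - S.ε * (φ₂ x + c₂ + l₂) ∈ S.L := by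
      convert S.L.add_mem (h x) hl using 1
      ring
    have p₁ : S.pt (φ₁ x + c₁) (φ₂ x + c₂) = Φ x + S.pt c₁ c₂ :=
      S.ext (by rw [e₁, S.x₁_pt (h x)]) (by rw [e₂, S.x₂_pt (h x)])
    have p₂ : S.pt (φ₁ x + c₁ + l₁) (φ₂ x + c₂ + l₂) = Φ x + S.pt c₁ c₂ + S.pt l₁ l₂ :=
      S.ext (by rw [map_add _ _ (S.pt l₁ l₂), e₁, S.x₁_pt h2, S.x₁_pt hl])
        (by rw [map_add _ _ (S.pt l₁ l₂), e₂, S.x₂_pt h2, S.x₂_pt hl])
    rw [Sh.DD, F.Setup.ed, F.Setup.ed, p₁, p₂, e₁, e₂, S.x₁_pt hl, S.x₂_pt hl]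

end

end Pool.Agent.P.MP_29cb78_nt.H
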