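import Pool.Agent.P.MP_29cb78_nt.H.Defs

/-! One step of the chain of forms. -/

namespace Pool.Agent.P.MP_29cb78_nt.H

open Filter Topology E E2

namespace Step

theorem map_mul_int (f : ℂ →+ ℚ) (i : ℤ) (z : ℂ) : f (i * z) = i * f z := by
  rw [← zsmul_eq_mul, map_zsmul, zsmul_eq_mul]

theorem mul_int_mem {L : AddSubgroup ℂ} (i : ℤ) {z : ℂ} (hz : z ∈ L) : (i : ℂ) * z ∈ L := by
  rw [← zsmul_eq_mul]
  exact L.zsmul_mem hz i

theorem im_neg {γ0 β0 γ m : ℂ} {x y u v : ℤ} (h1 : u * x + v * y = 1)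
    (hγ : γ = x * β0 - y * γ0) (hm : m = u * γ0 + v * β0) (h : 0 < (β0 / γ0).im) :
    (m / γ).im < 0 := by
  have h1' : (u : ℝ) * x + v * y = 1 := by exact_mod_cast h1
  have key : m.im * γ.re - m.re * γ.im = -(β0.im * γ0.re - β0.re * γ0.im) := by
    subst hγ hm
    simp only [Complex.add_im, Complex.add_re, Complex.sub_im, Complex.sub_re, Complex.mul_im,
      Complex.mul_re, Complex.intCast_re, Complex.intCast_im]
    linear_combination (-(β0.im * γ0.re - β0.re * γ0.im)) * h1'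
  rw [Complex.div_im, ← sub_div] at h ⊢
  have hD : 0 < β0.im * γ0.re - β0.re * γ0.im := by
    by_contra hn
    exact absurd h (not_lt.2 (div_nonpos_of_nonpos_of_nonneg (not_lt.1 hn)
      (Complex.normSq_nonneg _)))
  have hγ0 : γ ≠ 0 := by
    rintro rfl
    simp only [Complex.zero_re, Complex.zero_im, mul_zero, sub_zero] at key
    linarith
  exact div_neg_of_neg_of_pos (by linarith) (Complex.normSq_pos.2 hγ0)

/-- A basis of the kernel lattice adapted to the second form. -/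
theorem basis {L : AddSubgroup ℂ} {a b : ℂ →+ ℚ} {s : ℕ} (ha : Fm L a) (hs : s ≠ 0)
    (h1 : ∀ m ∈ L, a m = 0 → ∃ k : ℤ, b m = k * s) {m : ℂ} (hm : m ∈ L) (ham : a m = 0)
    (hbm : b m = s) : ∃ γ ∈ L, a γ = 0 ∧ b γ = 0 ∧ (m / γ).im < 0 ∧
      ∀ z ∈ L, a z = 0 → ∃ j k : ℤ, z = j * m + k * γ := by
  obtain ⟨γ0, β0, him, hlat⟩ := ha.lat
  have hγ0 : γ0 ∈ L ⊓ a.ker := (hlat γ0).2 ⟨1, 0, by simp⟩
  have hβ0 : β0 ∈ L ⊓ a.ker := (hlat β0).2 ⟨0, 1, by simp⟩
  have a1 : a γ0 = 0 := hγ0.2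
  have a2 : a β0 = 0 := hβ0.2
  obtain ⟨x, hx⟩ := h1 γ0 hγ0.1 a1
  obtain ⟨y, hy⟩ := h1 β0 hβ0.1 a2
  obtain ⟨u, v, huv⟩ := (hlat m).1 ⟨hm, ham⟩
  have hs' : (s : ℚ) ≠ 0 := Nat.cast_ne_zero.2 hs
  have hdet : u * x + v * y = 1 := by
    rw [huv, map_add, map_mul_int, map_mul_int, hx, hy] at hbm
    have : ((u : ℚ) * x + v * y) = 1 := mul_right_cancel₀ hs' (by linear_combination hbm)
    exact_mod_cast this
  have hdet' : (u : ℂ) * x + v * y = 1 := by exact_mod_cast hdet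
  refine ⟨x * β0 - y * γ0, L.sub_mem (mul_int_mem x hβ0.1) (mul_int_mem y hγ0.1), ?_, ?_,
    im_neg hdet rfl huv him, fun z hz haz => ?_⟩
  · rw [map_sub, map_mul_int, map_mul_int, a1, a2]
    ring
  · rw [map_sub, map_mul_int, map_mul_int, hx, hy]
    ring
  · obtain ⟨j, k, hjk⟩ := (hlat z).1 ⟨hz, haz⟩
    refine ⟨j * x + k * y, k * u - j * v, ?_⟩
    rw [hjk, huv]
    push_cast
    linear_combination (-(j * γ0 + k * β0)) * hdet'

/-- The third generator. -/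
theorem third {L : AddSubgroup ℂ} {a b : ℂ →+ ℚ} {s : ℕ} (ha : Fm L a) (hb : Fm L b) (hs : s ≠ 0)
    {m : ℂ} (hm : m ∈ L) (ham : a m = 0) (hbm : b m = s) :
    ∃ e ∈ L, ∃ t : ℕ, t < s ∧ a e = 1 ∧ b e = -t := by
  obtain ⟨l, hl, hal⟩ := ha.one
  obtain ⟨k, hk⟩ := hb.int l hl
  have hs0 : (0 : ℤ) < s := by exact_mod_cast Nat.pos_of_ne_zero hs
  have h0 : 0 ≤ (-k) % s := Int.emod_nonneg _ hs0.ne'
  have h1 : (-k) % s < s := Int.emod_lt_of_pos _ hs0
  have h2 : (s : ℤ) * ((-k) / s) + (-k) % s = -k := Int.mul_ediv_add_emod _ _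
  obtain ⟨t, ht⟩ := Int.eq_ofNat_of_zero_le h0
  rw [ht] at h1 h2
  have h3 : (s : ℚ) * (((-k) / s : ℤ) : ℚ) + t = -k := by exact_mod_cast h2
  refine ⟨l + (((-k) / s : ℤ) : ℂ) * m, L.add_mem hl (mul_int_mem _ hm), t, by exact_mod_cast h1,
    ?_, ?_⟩
  · rw [map_add, map_mul_int, hal, ham]
    ring
  · rw [map_add, map_mul_int, hk, hbm]
    linear_combination h3

theorem orient {w γ m e : ℂ} (h0 : (w * γ).re = 0) (h1 : 0 < (w * m).re) (h2 : (w * e).re < 0)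
    (h : (m / γ).im < 0) : 0 < (e / γ).im := by
  have hγ : γ ≠ 0 := by
    rintro rfl
    simp at h
  have key : ∀ z : ℂ, (w * z).re = -((w * γ).im * (z / γ).im) := fun z => by
    have : w * z = (w * γ) * (z / γ) := by field_simp
    rw [this, Complex.mul_re (w * γ), h0]
    ring
  rw [key] at h1 h2
  have hr : 0 < (w * γ).im := by
    by_contra hn
    nlinarith [mul_nonneg_of_nonpos_of_nonpos (not_lt.1 hn) h.le]
  by_contra hn
  nlinarith [mul_nonneg hr.le (neg_nonneg.2 (not_lt.1 hn))]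

end Step

open Step in
theorem step_thm : H_STEP := by
  rintro L a b s ha hb ⟨κ, w, hκ, hw⟩ hs h1 ⟨m, hm, ham, hbm⟩
  obtain ⟨γ, hγ, haγ, hbγ, him, hgen⟩ := basis ha hs h1 hm ham hbm
  obtain ⟨e, he, t, hts, hae, hbe⟩ := third ha hb hs hm ham hbm
  have hs' : (s : ℚ) ≠ 0 := Nat.cast_ne_zero.2 hs
  have hsR : (0 : ℝ) < s := by exact_mod_cast Nat.pos_of_ne_zero hs
  have ht0 : (0 : ℝ) ≤ t := Nat.cast_nonneg t
  let c : ℂ →+ ℚ :=
    { toFun := fun z => (b z + t * a z) / s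
      map_zero' := by simp
      map_add' := fun x y => by
        rw [map_add, map_add]
        ring }
  have hc : ∀ z, c z = (b z + t * a z) / s := fun _ => rfl
  have ce : c e = 0 := by
    rw [hc, hbe, hae]
    ring
  have cm : c m = 1 := by
    rw [hc, hbm, ham]
    field_simp
    ring
  have cγ : c γ = 0 := by
    rw [hc, hbγ, haγ]
    ring
  have hL : ∀ z, z ∈ L ↔ ∃ i j k : ℤ, z = i * e + j * m + k * γ := by
    refine fun z => ⟨fun hz => ?_, ?_⟩
    · obtain ⟨i, hi⟩ := ha.int z hz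
      obtain ⟨j, k, hjk⟩ := hgen (z - i * e) (L.sub_mem hz (mul_int_mem i he)) (by
        rw [map_sub, map_mul_int, hi, hae]
        ring)
      exact ⟨i, j, k, by linear_combination hjk⟩
    · rintro ⟨i, j, k, rfl⟩
      exact L.add_mem (L.add_mem (mul_int_mem i he) (mul_int_mem j hm)) (mul_int_mem k hγ)
  have cval : ∀ i j k : ℤ, c (i * e + j * m + k * γ) = j := fun i j k => by
    rw [map_add, map_add, map_mul_int, map_mul_int, map_mul_int, ce, cm, cγ]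
    ring
  have hor : 0 < (e / γ).im := by
    have w1 := hw γ hγ
    have w2 := hw m hm
    have w3 := hw e he
    rw [hbγ, haγ] at w1
    rw [hbm, ham] at w2
    rw [hbe, hae] at w3
    push_cast at w1 w2 w3
    exact orient (w := w) (m := m) (by linarith) (by linarith) (by linarith) him
  refine ⟨c, e, m, γ, t, ⟨⟨m, hm, cm⟩, fun z hz => ?_, γ, e, hor, fun z => ⟨fun hz => ?_, ?_⟩⟩,
    ⟨κ * s / (κ + t), ((t / (κ + t) : ℝ) : ℂ) * w, by positivity, fun l hl => ?_⟩, hts,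
    fun z hz hcz => ?_, ⟨-e, L.neg_mem he, by rw [map_neg, ce, neg_zero],
      by rw [map_neg, hbe, neg_neg]⟩, hL, hae, ham, haγ, ce, cm, cγ, hor, him⟩
  · obtain ⟨i, j, k, rfl⟩ := (hL z).1 hz
    exact ⟨j, cval i j k⟩
  · obtain ⟨i, j, k, rfl⟩ := (hL z).1 hz.1
    have h0 : (j : ℚ) = 0 := (cval i j k).symm.trans hz.2
    have h0' : j = 0 := by exact_mod_cast h0
    exact ⟨k, i, by rw [h0']; push_cast; ring⟩
  · rintro ⟨j, k, rfl⟩
    refine ⟨L.add_mem (mul_int_mem j hγ) (mul_int_mem k he), ?_⟩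
    change c _ = 0
    rw [map_add, map_mul_int, map_mul_int, ce, cγ]
    ring
  · have h2 := hw l hl
    have h3 : (w * l).re = b l - κ * a l := by linarith
    rw [mul_assoc, Complex.re_ofReal_mul, h3, hc]
    push_cast
    field_simp
    ring
  · obtain ⟨i, j, k, rfl⟩ := (hL z).1 hz
    have h0 : (j : ℚ) = 0 := (cval i j k).symm.trans hcz
    refine ⟨-i, ?_⟩
    rw [map_add, map_add, map_mul_int, map_mul_int, map_mul_int, hbe, hbγ, h0]
    push_cast
    ring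

end Pool.Agent.P.MP_29cb78_nt.H
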