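import Pool.Agent.P.MP_29cb78_nt.H.Basic

/-!
Systems of theta multipliers exist.
-/

namespace Pool.Agent.P.MP_29cb78_nt.H

open Filter Topology E E2

namespace Tex

theorem prim (g : ℤ → U) : ∃ P : ℤ → U, P 0 = 0 ∧ ∀ k, P (k + 1) = P k + g (k + 1) := by
  refine ⟨fun k => ∑ j ∈ Finset.range k.toNat, g (j + 1) -
    ∑ j ∈ Finset.range (-k).toNat, g (-j), by simp, fun k => ?_⟩
  beta_reduce
  rcases le_or_gt 0 k with hk | hk
  · obtain ⟨n, rfl⟩ := Int.eq_ofNat_of_zero_le hk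
    rw [show ((n : ℤ) + 1).toNat = n + 1 by omega, show (-((n : ℤ) + 1)).toNat = 0 by omega,
      show (-(n : ℤ)).toNat = 0 by omega, Int.toNat_natCast, Finset.sum_range_succ]
    abel
  · obtain ⟨n, hn⟩ : ∃ n : ℕ, k = -(n : ℤ) - 1 := ⟨(-k - 1).toNat, by omega⟩
    subst hn
    rw [show (-(n : ℤ) - 1 + 1).toNat = 0 by omega, show (-(-(n : ℤ) - 1 + 1)).toNat = n by omega,
      show (-(n : ℤ) - 1).toNat = 0 by omega, show (-(-(n : ℤ) - 1)).toNat = n + 1 by omega,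
      Finset.sum_range_succ, sub_add_cancel]
    abel

variable {TT : ℤ → ℂ → U} {G : ℂ → U} {lam : ℂ}

theorem split (h0 : ∀ z, TT 0 z = 0)
    (hs : ∀ k z, TT (k + 1) z = TT k z + G (z + ((k + 1 : ℤ) : ℂ) * lam)) (k k' : ℤ) (z : ℂ) :
    TT (k + k') z = TT k z + TT k' (z + k * lam) := by
  have e : ∀ j : ℤ, z + ((k + j + 1 : ℤ) : ℂ) * lam = z + k * lam + ((j + 1 : ℤ) : ℂ) * lam :=
    fun j => by push_cast; ring
  induction k' using Int.induction_on with
  | zero => rw [add_zero, h0, add_zero]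
  | succ n ih => rw [← add_assoc, hs, hs, ih, e, add_assoc]
  | pred n ih =>
    have h1 := hs (k + (-(n : ℤ) - 1)) z
    have h2 := hs (-(n : ℤ) - 1) (z + k * lam)
    rw [e, add_assoc k, sub_add_cancel, ih] at h1
    rw [sub_add_cancel] at h2
    rw [h2, ← add_assoc] at h1
    exact (add_right_cancel h1).symm

theorem per {bad : ℂ → Prop} {m : ℂ} (h0 : ∀ z, TT 0 z = 0)
    (hs : ∀ k z, TT (k + 1) z = TT k z + G (z + ((k + 1 : ℤ) : ℂ) * lam))
    (hG : ∀ j : ℤ, Ng 2 bad fun z => G (z + m + j * lam) - G (z + j * lam)) (k : ℤ) :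
    Ng 2 bad fun z => TT k (z + m) - TT k z := by
  induction k using Int.induction_on with
  | zero => exact Ng.of_zero fun z _ => by rw [h0, h0, sub_zero]
  | succ n ih => exact (ih.add (hG (n + 1))).congr fun z _ => by rw [hs, hs]; abel
  | pred n ih =>
    refine (ih.sub (hG (-(n : ℤ) - 1 + 1))).congr fun z _ => ?_
    have h1 := hs (-(n : ℤ) - 1) (z + m)
    have h2 := hs (-(n : ℤ) - 1) z
    rw [sub_add_cancel] at h1 h2
    rw [h1, h2, sub_add_cancel]
    abel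

end Tex

theorem tex_thm (hth : H_TH) (htq : H_TQ) : H_TEX := by
  intro L a hF
  obtain ⟨ϑ₀, hϑ₀⟩ := hF.theta hth
  obtain ⟨lam, hlam, ha⟩ := hF.one
  choose P h0 hs using fun z : ℂ => Tex.prim fun j : ℤ => lg (ϑ₀ (z + j * lam))
  have hmul : ∀ j : ℤ, (j : ℂ) * lam ∈ L := fun j => by
    rw [← zsmul_eq_mul]; exact L.zsmul_mem hlam j
  have hamul : ∀ j : ℤ, a (j * lam) = j := fun j => by
    rw [← zsmul_eq_mul, map_zsmul, ha]; simp
  have hne : ∀ l ∈ L, ∀ z, z ∉ L → ϑ₀ (z + l) ≠ 0 := fun l hl z hz =>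
    hϑ₀.ne fun e => hz ((L.add_mem_cancel_right hl).1 e.1)
  have hper : ∀ m ∈ L ⊓ a.ker, ∀ k : ℤ, Ng 2 (· ∈ L) fun z => P (z + m) k - P z k :=
    fun m hm => Tex.per (TT := fun k z => P z k) (G := fun z => lg (ϑ₀ z)) (lam := lam) h0
      (fun k z => hs z k) fun j => (hϑ₀.qp.shift (j * lam)).ng hm (hne _ (hmul j))
  have hsp := Tex.split (TT := fun k z => P z k) (G := fun z => lg (ϑ₀ z)) (lam := lam) h0
    fun k z => hs z k
  refine ⟨fun l z => P z ⌊a l⌋, ⟨mem_add_iff le_rfl, fun l hl l' hl' => ?_⟩, fun m _ hm => ?_,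
    fun ϑ hϑ l hl h1 => ?_⟩
  · obtain ⟨k, hk⟩ := hF.int l hl
    obtain ⟨k', hk'⟩ := hF.int l' hl'
    have hm : l - k * lam ∈ L ⊓ a.ker :=
      mem_ker.2 ⟨L.sub_mem hl (hmul k), by rw [map_sub, hk, hamul, sub_self]⟩
    refine ((hper _ hm k').shift (k * lam)
      fun x => (L.add_mem_cancel_right (hmul k)).1).neg.congr fun z _ => ?_
    have := hsp k k' z
    beta_reduce at this ⊢
    rw [map_add, hk, hk', ← Int.cast_add, Int.floor_intCast, Int.floor_intCast, Int.floor_intCast,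
      this, show z + k * lam + (l - k * lam) = z + l by ring]
    abel
  · exact Ng.of_zero fun z _ => by rw [hm, Int.floor_zero, h0]
  · obtain ⟨Q, hQ, e⟩ := htq _ ϑ ϑ₀ hF.big hϑ.diff hϑ₀.diff hϑ.qp hϑ₀.qp
      (fun z => by simpa only [add_zero] using (hϑ.order 0 z).trans (hϑ₀.order 0 z).symm) (by
        by_contra h
        push Not at h
        exact hϑ₀.simple (by rw [funext h, deriv_const]))
    have hm : l - lam ∈ L ⊓ a.ker :=
      mem_ker.2 ⟨L.sub_mem hl hlam, by rw [map_sub, h1, ha, sub_self]⟩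
    have h2 : Ng 2 (· ∈ L) fun z => lg (ϑ (z + l)) - lg (ϑ₀ (z + l)) :=
      Ng.of_ex (hQ.shift l) fun z hz => ⟨hne l hl z hz, e _⟩
    have h3 := (hϑ₀.qp.shift lam).ng hm (bad := (· ∈ L)) (hne _ hlam)
    refine (h2.add h3).neg.congr fun z _ => ?_
    have h4 := hs z 0
    rw [zero_add, h0, zero_add, Int.cast_one, one_mul] at h4
    rw [h1, Int.floor_one, h4, show z + (l - lam) + lam = z + l by ring]
    abel

end Pool.Agent.P.MP_29cb78_nt.H
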