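import Pool.Agent.P.MP_29cb78_nt.H.Defs

/-!
Two theta functions with the same divisor.
-/

namespace Pool.Agent.P.MP_29cb78_nt.H

open Filter Topology E E2

namespace Tq

theorem liou {M : AddSubgroup ℂ} (hM : Big M) {f : ℂ → ℂ} (hf : Differentiable ℂ f)
    (h : ∀ m ∈ M, ∀ z, f (z + m) = f z) (z u : ℂ) : f z = f u := by
  obtain ⟨γ, hγM, β, hβM, hτ⟩ := hM
  have hγ : γ ≠ 0 := fun e => hτ (by simp [e])
  have hc : IsCompact ((fun p : ℝ × ℝ => f (p.1 * γ + p.2 * β)) '' (Set.Icc 0 1 ×ˢ Set.Icc 0 1)) :=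
    (isCompact_Icc.prod isCompact_Icc).image (hf.continuous.comp (by fun_prop))
  refine hf.apply_eq_apply_of_bounded (hc.isBounded.subset ?_) z u
  rintro _ ⟨w, rfl⟩
  obtain ⟨x, y, rfl⟩ : ∃ x y : ℝ, w = x * γ + y * β := by
    refine ⟨(w / γ).re - (w / γ).im / (β / γ).im * (β / γ).re, (w / γ).im / (β / γ).im, ?_⟩
    have : ∀ (x y : ℝ), w / γ = x + y * (β / γ) → w = x * γ + y * β := fun x y e => by
      rw [div_eq_iff hγ] at e
      rw [e]
      field_simp
    apply this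
    generalize w / γ = v
    generalize β / γ = τ at hτ
    apply Complex.ext
    · simp only [Complex.add_re, Complex.ofReal_re, Complex.re_ofReal_mul]
      ring
    · simp only [Complex.add_im, Complex.ofReal_im, Complex.im_ofReal_mul]
      field_simp
      ring
  refine ⟨(Int.fract x, Int.fract y), ⟨⟨Int.fract_nonneg _, (Int.fract_lt_one _).le⟩,
    Int.fract_nonneg _, (Int.fract_lt_one _).le⟩, ?_⟩
  refine (h _ (M.add_mem (M.zsmul_mem hγM ⌊x⌋) (M.zsmul_mem hβM ⌊y⌋)) _).symm.trans ?_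
  congr 1
  simp only [Int.fract, zsmul_eq_mul]
  push_cast
  ring

theorem loc {f g : ℂ → ℂ} (hf : Differentiable ℂ f) (hg : Differentiable ℂ g)
    (ho : ∀ z, analyticOrderAt f z = analyticOrderAt g z) (hne : ∃ z, g z ≠ 0) (z₀ : ℂ) :
    ∃ k : ℂ → ℂ, AnalyticAt ℂ k z₀ ∧ k z₀ ≠ 0 ∧ (∀ᶠ z in 𝓝 z₀, f z = k z * g z) ∧
      ∀ᶠ z in 𝓝[≠] z₀, g z ≠ 0 := by
  have htop : analyticOrderAt g z₀ ≠ ⊤ := fun e => by
    obtain ⟨w, hw⟩ := hne
    exact hw (AnalyticOnNhd.eqOn_zero_of_preconnected_of_eventuallyEq_zero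
      (fun z _ => hg.analyticAt z) isPreconnected_univ (Set.mem_univ z₀)
      (analyticOrderAt_eq_top.1 e) (Set.mem_univ w))
  obtain ⟨n, hn⟩ := ENat.ne_top_iff_exists.1 htop
  obtain ⟨v, hv, hv0, ev⟩ := (hg.analyticAt z₀).analyticOrderAt_eq_natCast.1 hn.symm
  obtain ⟨u, hu, hu0, eu⟩ :=
    (hf.analyticAt z₀).analyticOrderAt_eq_natCast.1 ((ho z₀).trans hn.symm)
  have hv1 : ∀ᶠ z in 𝓝 z₀, v z ≠ 0 := hv.continuousAt.eventually_ne hv0
  refine ⟨fun z => u z / v z, hu.div hv hv0, div_ne_zero hu0 hv0, ?_, ?_⟩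
  · filter_upwards [ev, eu, hv1] with z e1 e2 e3
    rw [e1, e2, smul_eq_mul, smul_eq_mul]
    field_simp
  · filter_upwards [ev.filter_mono nhdsWithin_le_nhds, hv1.filter_mono nhdsWithin_le_nhds,
      self_mem_nhdsWithin] with z e1 e3 e4
    rw [e1, smul_eq_mul]
    exact mul_ne_zero (pow_ne_zero _ (sub_ne_zero.2 e4)) e3

theorem quot {f g : ℂ → ℂ} (hf : Differentiable ℂ f) (hg : Differentiable ℂ g)
    (ho : ∀ z, analyticOrderAt f z = analyticOrderAt g z) (hne : ∃ z, g z ≠ 0) :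
    ∃ h : ℂ → ℂ, Differentiable ℂ h ∧ (∀ z, h z ≠ 0) ∧ (∀ z, f z = h z * g z) ∧
      ∀ z₀, ∀ᶠ z in 𝓝[≠] z₀, g z ≠ 0 := by
  choose k hk hk0 e hz using loc hf hg ho hne
  have e0 : ∀ z, f z = k z z * g z := fun z => (e z).self_of_nhds
  refine ⟨fun z => k z z, fun z₀ => ((hk z₀).congr ?_).differentiableAt, hk0, e0, hz⟩
  filter_upwards [e z₀, eventually_nhdsWithin_iff.1 (hz z₀)] with z e1 e2
  by_cases h : z = z₀
  · rw [h]
  · exact mul_right_cancel₀ (e2 h) (e1.symm.trans (e0 z))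

end Tq

open Tq in
theorem tq_thm : H_TQ := by
  intro M f g hM hf hg qf qg ho hne
  obtain ⟨h, hh, h0, e, hz⟩ := quot hf hg ho hne
  have hq : QP M h := fun m hm => by
    obtain ⟨η₁, c₁, e₁⟩ := qf m hm
    obtain ⟨η₂, c₂, e₂⟩ := qg m hm
    refine ⟨η₁ - η₂, c₁ - c₂, fun z₀ => ?_⟩
    have hc := hh.continuous
    have t1 : Continuous fun z => h (z + m) := by fun_prop
    have t2 : Continuous fun z => Complex.exp ((η₁ - η₂) * z + (c₁ - c₂)) * h z := by fun_prop
    refine tendsto_nhds_unique_of_eventuallyEq (l := 𝓝[≠] z₀)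
      (t1.continuousAt.mono_left nhdsWithin_le_nhds)
      (t2.continuousAt.mono_left nhdsWithin_le_nhds) ?_
    filter_upwards [hz z₀] with z hgz
    have e3 := e (z + m)
    rw [e₁, e₂, e z] at e3
    have e4 : Complex.exp (η₁ * z + c₁) =
        Complex.exp ((η₁ - η₂) * z + (c₁ - c₂)) * Complex.exp (η₂ * z + c₂) := by
      rw [← Complex.exp_add]
      congr 1
      ring
    apply mul_right_cancel₀ (mul_ne_zero (Complex.exp_ne_zero (η₂ * z + c₂)) hgz)
    rw [← e3, e4]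
    ring
  refine ⟨fun z => lg (h z), fun a b x y => ?_, fun z => by rw [ex_lg (h0 z), e z]⟩
  have hk : ∀ x y, h (x + b + a) * h x / (h (x + b) * h (x + a)) =
      h (y + b + a) * h y / (h (y + b) * h (y + a)) := by
    refine liou hM (f := fun x => h (x + b + a) * h x / (h (x + b) * h (x + a))) ?_ ?_
    · exact Differentiable.div (by fun_prop) (by fun_prop) fun x => mul_ne_zero (h0 _) (h0 _)
    · intro m hm z
      obtain ⟨η, c, e₁⟩ := hq m hm
      have e2 : Complex.exp (η * (z + b + a) + c) * Complex.exp (η * z + c) =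
          Complex.exp (η * (z + b) + c) * Complex.exp (η * (z + a) + c) := by
        rw [← Complex.exp_add, ← Complex.exp_add]
        congr 1
        ring
      have e3 : z + m + b + a = z + b + a + m := by ring
      rw [e3, add_right_comm z m b, add_right_comm z m a, e₁, e₁, e₁, e₁,
        mul_mul_mul_comm, e2, mul_mul_mul_comm _ (h (z + b)), mul_div_mul_left]
      exact mul_ne_zero (Complex.exp_ne_zero _) (Complex.exp_ne_zero _)
  have hl : ∀ x, lg (h (x + b + a)) - lg (h (x + b)) - (lg (h (x + a)) - lg (h x)) =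
      lg (h (x + b + a) * h x / (h (x + b) * h (x + a))) := fun x => by
    rw [lg_div (mul_ne_zero (h0 _) (h0 _)) (mul_ne_zero (h0 _) (h0 _)), lg_mul (h0 _) (h0 _),
      lg_mul (h0 _) (h0 _)]
    abel
  exact (hl x).trans ((congrArg lg (hk x y)).trans (hl y).symm)

end Pool.Agent.P.MP_29cb78_nt.H
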