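import Pool.Agent.P.MP_29cb78_nt.H.Cmp
import Pool.Agent.P.MP_29cb78_nt.H.Dt
import Pool.Agent.P.MP_29cb78_nt.H.Fin
import Pool.Agent.P.MP_29cb78_nt.H.Gam
import Pool.Agent.P.MP_29cb78_nt.H.Mix
import Pool.Agent.P.MP_29cb78_nt.H.Raw
import Pool.Agent.P.MP_29cb78_nt.H.Sh
import Pool.Agent.P.MP_29cb78_nt.H.Step
import Pool.Agent.P.MP_29cb78_nt.H.Tex
import Pool.Agent.P.MP_29cb78_nt.H.Tq

/-!
Wiring of the comparison theorems.
-/

namespace Pool.Agent.P.MP_29cb78_nt.H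

theorem tex_all : H_TEX := tex_thm th_thm0 tq_thm

theorem mix_all : H_MIX := mix_thm th_thm0 tex_all (raw_thm th_thm0 gam_thm) step_thm

theorem coc_thm : F.S_COC := coc_of cmp_thm tex_all sh_thm

theorem ind_thm : F.S_IND := ind_of cmp_thm tex_all sh_thm mix_all

theorem dist_thm : F.S_DIST := dist_of cmp_thm tex_all sh_thm (dt_thm th_thm0 tq_thm)

end Pool.Agent.P.MP_29cb78_nt.H
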