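import Pool.Agent.P.MP_29cb78_nt.H.Defs

/-!
Calculus of negligible maps and cocycles.
-/

namespace Pool.Agent.P.MP_29cb78_nt.H

open Filter Topology E E2
open scoped Classical

noncomputable section

variable {B B' : Type} [AddCommGroup B] [AddCommGroup B']

namespace Ng

variable {d : ℕ} {bad : B → Prop} {F G : B → U}

theorem of_poly (h : PolyLE d F) : Ng d bad F := ⟨F, h, fun _ _ => rfl⟩

theorem const (c : U) : Ng d bad fun _ => c := of_poly (PolyLE.const d c)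

theorem congr (h : Ng d bad F) (e : ∀ x, ¬ bad x → G x = F x) : Ng d bad G :=
  let ⟨Q, hQ, h⟩ := h
  ⟨Q, hQ, fun x hx => (e x hx).trans (h x hx)⟩

theorem of_zero (e : ∀ x, ¬ bad x → F x = 0) : Ng d bad F := (const 0).congr e

theorem add (h : Ng d bad F) (h' : Ng d bad G) : Ng d bad fun x => F x + G x :=
  let ⟨_, hQ, h⟩ := h
  let ⟨_, hQ', h'⟩ := h'
  ⟨_, hQ.add hQ', fun x hx => by beta_reduce; rw [h x hx, h' x hx]⟩

theorem neg (h : Ng d bad F) : Ng d bad fun x => -F x :=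
  let ⟨_, hQ, h⟩ := h
  ⟨_, hQ.neg, fun x hx => by beta_reduce; rw [h x hx]⟩

theorem sub (h : Ng d bad F) (h' : Ng d bad G) : Ng d bad fun x => F x - G x :=
  (h.add h'.neg).congr fun _ _ => sub_eq_add_neg _ _

theorem sum {ι : Type*} {f : ι → B → U} (s : Finset ι) (h : ∀ i ∈ s, Ng d bad (f i)) :
    Ng d bad fun x => ∑ i ∈ s, f i x := by
  induction s using Finset.induction_on with
  | empty => exact of_zero fun _ _ => Finset.sum_empty
  | insert i s hi ih =>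
    exact ((h i (Finset.mem_insert_self _ _)).add
      (ih fun j hj => h j (Finset.mem_insert_of_mem hj))).congr fun _ _ => Finset.sum_insert hi

/-- Pull back along an affine map. -/
theorem aff (h : Ng d bad F) (φ : B' →+ B) (c : B) {bad' : B' → Prop}
    (hb : ∀ x, bad (φ x + c) → bad' x) : Ng d bad' fun x => F (φ x + c) :=
  let ⟨_, hQ, h⟩ := h
  ⟨_, hQ.aff φ c, fun x hx => h _ fun e => hx (hb x e)⟩

theorem pre (h : Ng d bad F) (φ : B' →+ B) {bad' : B' → Prop}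
    (hb : ∀ x, bad (φ x) → bad' x) : Ng d bad' fun x => F (φ x) :=
  let ⟨_, hQ, h⟩ := h
  ⟨_, hQ.pre φ, fun x hx => h _ fun e => hx (hb x e)⟩

theorem shift (h : Ng d bad F) (c : B) {bad' : B → Prop} (hb : ∀ x, bad (x + c) → bad' x) :
    Ng d bad' fun x => F (x + c) := h.aff (AddMonoidHom.id B) c hb

theorem anti (h : Ng d bad F) {bad' : B → Prop} (hb : ∀ x, bad x → bad' x) : Ng d bad' F :=
  h.pre (AddMonoidHom.id B) hb

theorem mono (h : Ng d bad F) {e : ℕ} (he : d ≤ e) : Ng e bad F :=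
  let ⟨Q, hQ, h⟩ := h
  ⟨Q, hQ.mono he, h⟩

/-- An exponential multiplier. -/
theorem of_exp {f g P : B → ℂ} (hP : PolyLE d P)
    (h : ∀ x, ¬ bad x → g x ≠ 0 ∧ f x = Complex.exp (P x) * g x) :
    Ng d bad fun x => lg (f x) - lg (g x) :=
  ⟨_, hP.post expHom, fun x hx => by
    beta_reduce; rw [(h x hx).2, lg_exp_mul _ (h x hx).1, add_sub_cancel_right]⟩

theorem of_ex {f g : B → ℂ} {Q : B → U} (hQ : PolyLE d Q)
    (h : ∀ x, ¬ bad x → g x ≠ 0 ∧ f x = ex (Q x) * g x) :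
    Ng d bad fun x => lg (f x) - lg (g x) :=
  ⟨_, hQ, fun x hx => by
    beta_reduce; rw [(h x hx).2, lg_mul (ex_ne _) (h x hx).1, lg_ex, add_sub_cancel_right]⟩

end Ng

/-- An affine function of a complex variable. -/
theorem poly_lin (η c : ℂ) : PolyLE 1 fun z : ℂ => η * z + c :=
  (PolyLE.hom (AddMonoidHom.mulLeft η)).add (PolyLE.const 1 c)

/-- Cubic maps on the integers are exponentials of cubic polynomials. -/
theorem cub_of_poly {Q : ℤ → U} (h : PolyLE 3 Q) :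
    ∃ P, F.Cub1 P ∧ ∀ t, ex (Q t) = Complex.exp (P t) := by
  obtain ⟨b₁, b₂, b₃, e⟩ := newton3 h
  have hl : ∀ b : U, ∃ z, expHom z = b := fun b =>
    ⟨Complex.log (ex b), by rw [← lg_exp, Complex.exp_log (ex_ne b), lg_ex]⟩
  obtain ⟨z₀, h₀⟩ := hl (Q 0)
  obtain ⟨z₁, rfl⟩ := hl b₁
  obtain ⟨z₂, rfl⟩ := hl b₂
  obtain ⟨z₃, rfl⟩ := hl b₃
  refine ⟨fun t => z₀ + t • z₁ + Ring.choose t 2 • z₂ + Ring.choose t 3 • z₃,
    ⟨z₀, z₁ - z₂ / 2 + z₃ / 3, z₂ / 2 - z₃ / 2, z₃ / 6, fun t => ?_⟩, fun t => ?_⟩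
  · have h2 : (2 : ℂ) * (Ring.choose t 2 : ℤ) = t * (t - 1) := by exact_mod_cast two_mul_choose t
    have h3 : (6 : ℂ) * (Ring.choose t 3 : ℤ) = t * (t - 1) * (t - 2) := by
      exact_mod_cast six_mul_choose t
    simp only [zsmul_eq_mul]
    linear_combination z₂ / 2 * h2 + z₃ / 6 * h3
  · rw [e t, ← h₀, ← ex_expHom]
    simp only [map_add, map_zsmul]

/-- The form of the final statements. -/
theorem Ng.cub {bad : ℤ → Prop} {f g : ℤ → ℂ} (h : Ng 3 bad fun t => lg (f t) - lg (g t))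
    (h0 : ∀ t, ¬ bad t → f t ≠ 0 ∧ g t ≠ 0) :
    ∃ P, F.Cub1 P ∧ ∀ t, ¬ bad t → f t = Complex.exp (P t) * g t := by
  obtain ⟨Q, hQ, h⟩ := h
  obtain ⟨P, hP, e⟩ := cub_of_poly hQ
  refine ⟨P, hP, fun t ht => ?_⟩
  rw [← e, ← h t ht, ex_sub, ex_lg (h0 t ht).1, ex_lg (h0 t ht).2, div_mul_cancel₀ _ (h0 t ht).2]

namespace Coc

variable {bad : B → Prop} {Λ : AddSubgroup B} {D D' : B → B → U}

/-- Coboundaries. -/
theorem cob (hb : ∀ ω ∈ Λ, ∀ x, bad (x + ω) ↔ bad x) (F : B → U) :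
    Coc bad Λ fun ω x => F (x + ω) - F x :=
  ⟨hb, fun _ _ _ _ => Ng.of_zero fun x _ => by rw [← add_assoc]; abel⟩

theorem plus (h : Coc bad Λ D) (h' : Coc bad Λ D') : Coc bad Λ fun ω x => D ω x + D' ω x :=
  ⟨h.bad_iff, fun ω hω ω' hω' =>
    ((h.add ω hω ω' hω').add (h'.add ω hω ω' hω')).congr fun x _ => by abel⟩

theorem minus (h : Coc bad Λ D) (h' : Coc bad Λ D') : Coc bad Λ fun ω x => D ω x - D' ω x :=
  ⟨h.bad_iff, fun ω hω ω' hω' =>
    ((h.add ω hω ω' hω').sub (h'.add ω hω ω' hω')).congr fun x _ => by abel⟩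

theorem sum {ι : Type*} {f : ι → B → B → U} (hb : ∀ ω ∈ Λ, ∀ x, bad (x + ω) ↔ bad x)
    (s : Finset ι) (h : ∀ i ∈ s, Coc bad Λ (f i)) : Coc bad Λ fun ω x => ∑ i ∈ s, f i ω x :=
  ⟨hb, fun ω hω ω' hω' => (Ng.sum s fun i hi => (h i hi).add ω hω ω' hω').congr fun x _ => by
    simp only [Finset.sum_sub_distrib]⟩

/-- Pull back along an affine map. -/
theorem aff (h : Coc bad Λ D) (φ : B' →+ B) (c : B) {bad' : B' → Prop} {Λ' : AddSubgroup B'}
    (hΛ : ∀ ω ∈ Λ', φ ω ∈ Λ) (hb : ∀ x, bad (φ x + c) → bad' x)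
    (hb' : ∀ ω ∈ Λ', ∀ x, bad' (x + ω) ↔ bad' x) :
    Coc bad' Λ' fun ω x => D (φ ω) (φ x + c) :=
  ⟨hb', fun ω hω ω' hω' => ((h.add _ (hΛ ω hω) _ (hΛ ω' hω')).aff φ c hb).congr fun x _ => by
    simp only [map_add, add_right_comm (φ x) (φ ω) c]⟩

theorem pre (h : Coc bad Λ D) (φ : B' →+ B) {bad' : B' → Prop} {Λ' : AddSubgroup B'}
    (hΛ : ∀ ω ∈ Λ', φ ω ∈ Λ) (hb : ∀ x, bad (φ x) → bad' x)
    (hb' : ∀ ω ∈ Λ', ∀ x, bad' (x + ω) ↔ bad' x) :
    Coc bad' Λ' fun ω x => D (φ ω) (φ x) := by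
  simpa only [add_zero] using h.aff φ 0 hΛ (by simpa only [add_zero] using hb) hb'

theorem anti (h : Coc bad Λ D) {bad' : B → Prop} {Λ' : AddSubgroup B} (hΛ : Λ' ≤ Λ)
    (hb : ∀ x, bad x → bad' x) (hb' : ∀ ω ∈ Λ', ∀ x, bad' (x + ω) ↔ bad' x) : Coc bad' Λ' D :=
  h.pre (AddMonoidHom.id B) hΛ hb hb'

/-- The elements on which the cocycle is negligible. -/
def ker (h : Coc bad Λ D) : AddSubgroup B where
  carrier := {ω | ω ∈ Λ ∧ Ng 2 bad (D ω)}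
  zero_mem' := ⟨Λ.zero_mem, (h.add 0 Λ.zero_mem 0 Λ.zero_mem).neg.congr fun x _ => by simp⟩
  add_mem' := fun {ω ω'} ⟨h1, h2⟩ ⟨h3, h4⟩ => ⟨Λ.add_mem h1 h3,
    (((h.add ω h1 ω' h3).add h2).add (h4.shift ω fun x => (h.bad_iff ω h1 x).1)).congr
      fun x _ => by abel⟩
  neg_mem' := fun {ω} ⟨h1, h2⟩ => ⟨Λ.neg_mem h1, by
    have h0 : Ng 2 bad (D 0) :=
      (h.add 0 Λ.zero_mem 0 Λ.zero_mem).neg.congr fun x _ => by simp
    exact ((h0.sub (h.add _ (Λ.neg_mem h1) ω h1)).sub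
      (h2.shift (-ω) fun x => (h.bad_iff _ (Λ.neg_mem h1) x).1)).congr fun x _ => by
        rw [neg_add_cancel]; abel⟩

theorem mem_ker (h : Coc bad Λ D) {ω : B} : ω ∈ h.ker ↔ ω ∈ Λ ∧ Ng 2 bad (D ω) := Iff.rfl

theorem zero (h : Coc bad Λ D) : Ng 2 bad (D 0) := h.ker.zero_mem.2

/-- Adding an element on which the cocycle is negligible. -/
theorem add_ker (h : Coc bad Λ D) {ω m : B} (hω : ω ∈ Λ) (hm : m ∈ Λ) (h0 : Ng 2 bad (D m)) :
    Ng 2 bad fun x => D (ω + m) x - D ω x :=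
  ((h.add ω hω m hm).add (h0.shift ω fun x => (h.bad_iff ω hω x).1)).congr fun x _ => by abel

/-- Multiples. -/
theorem nsmul (h : Coc bad Λ D) {ω : B} (hω : ω ∈ Λ) (n : ℕ) :
    Ng 2 bad fun x => D (n • ω) x - ∑ k ∈ Finset.range n, D ω (x + k • ω) := by
  induction n with
  | zero => exact h.zero.congr fun x _ => by simp
  | succ n ih =>
    exact (ih.add (h.add _ (Λ.nsmul_mem hω n) ω hω)).congr fun x _ => by
      rw [Finset.sum_range_succ, succ_nsmul]; abel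

/-- Generation by the kernel of a form and one more element. -/
theorem gen_form {bad : ℂ → Prop} {L : AddSubgroup ℂ} {D : ℂ → ℂ → U} (h : Coc bad L D)
    {a : ℂ →+ ℚ} (hint : ∀ z ∈ L, ∃ k : ℤ, a z = k) {lam : ℂ} (hl : lam ∈ L) (ha : a lam = 1)
    (hM : ∀ m ∈ L, a m = 0 → Ng 2 bad (D m)) (h1 : Ng 2 bad (D lam)) :
    ∀ l ∈ L, Ng 2 bad (D l) := fun l hL => by
  obtain ⟨k, hk⟩ := hint l hL
  have h2 : l - k • lam ∈ L := L.sub_mem hL (L.zsmul_mem hl k)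
  have := h.ker.add_mem (h.mem_ker.2 ⟨h2, hM _ h2 (by rw [map_sub, map_zsmul, hk, ha]; simp)⟩)
    (h.ker.zsmul_mem (h.mem_ker.2 ⟨hl, h1⟩) k)
  rw [sub_add_cancel] at this
  exact this.2

/-- Generation by three elements. -/
theorem gen3 {bad : ℂ → Prop} {L : AddSubgroup ℂ} {D : ℂ → ℂ → U} (h : Coc bad L D)
    {e₁ e₂ e₃ : ℂ} (hL : ∀ z, z ∈ L ↔ ∃ i j k : ℤ, z = i * e₁ + j * e₂ + k * e₃)
    (h₁ : Ng 2 bad (D e₁)) (h₂ : Ng 2 bad (D e₂)) (h₃ : Ng 2 bad (D e₃)) :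
    ∀ l ∈ L, Ng 2 bad (D l) := fun l hl => by
  obtain ⟨i, j, k, rfl⟩ := (hL l).1 hl
  simp only [← zsmul_eq_mul]
  exact (h.ker.add_mem (h.ker.add_mem
    (h.ker.zsmul_mem (h.mem_ker.2 ⟨(hL _).2 ⟨1, 0, 0, by simp⟩, h₁⟩) i)
    (h.ker.zsmul_mem (h.mem_ker.2 ⟨(hL _).2 ⟨0, 1, 0, by simp⟩, h₂⟩) j))
    (h.ker.zsmul_mem (h.mem_ker.2 ⟨(hL _).2 ⟨0, 0, 1, by simp⟩, h₃⟩) k)).2

end Coc

theorem mem_add_iff {L L' : AddSubgroup ℂ} (h : L ≤ L') : ∀ ω ∈ L, ∀ x, x + ω ∈ L' ↔ x ∈ L' :=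
  fun _ hω _ => L'.add_mem_cancel_right (h hω)

/-! ### Theta functions -/

namespace QP

variable {M : AddSubgroup ℂ} {f g : ℂ → ℂ}

theorem one : QP M fun _ => 1 := fun _ _ => ⟨0, 0, fun _ => by simp⟩

theorem mul (hf : QP M f) (hg : QP M g) : QP M fun z => f z * g z := fun m hm => by
  obtain ⟨η, c, h⟩ := hf m hm
  obtain ⟨η', c', h'⟩ := hg m hm
  refine ⟨η + η', c + c', fun z => ?_⟩
  beta_reduce
  rw [h, h', show (η + η') * z + (c + c') = η * z + c + (η' * z + c') by ring,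
    Complex.exp_add (η * z + c)]
  ring

theorem prod {ι : Type*} {f : ι → ℂ → ℂ} (s : Finset ι) (h : ∀ i ∈ s, QP M (f i)) :
    QP M fun z => ∏ i ∈ s, f i z := by
  induction s using Finset.induction_on with
  | empty => simpa using one
  | insert i s hi ih =>
    simpa only [Finset.prod_insert hi] using (h i (Finset.mem_insert_self _ _)).mul
      (ih fun j hj => h j (Finset.mem_insert_of_mem hj))

theorem shift (hf : QP M f) (u : ℂ) : QP M fun z => f (z + u) := fun m hm => by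
  obtain ⟨η, c, h⟩ := hf m hm
  refine ⟨η, η * u + c, fun z => ?_⟩
  beta_reduce
  rw [add_right_comm, h, mul_add, add_assoc]

theorem anti (hf : QP M f) {M' : AddSubgroup ℂ} (h : M' ≤ M) : QP M' f := fun m hm => hf m (h hm)

/-- A period is negligible. -/
theorem ng (hf : QP M f) {m : ℂ} (hm : m ∈ M) {bad : ℂ → Prop} (h0 : ∀ z, ¬ bad z → f z ≠ 0) :
    Ng 2 bad fun z => lg (f (z + m)) - lg (f z) := by
  obtain ⟨η, c, h⟩ := hf m hm
  exact Ng.of_exp ((poly_lin η c).mono one_le_two) fun z hz => ⟨h0 z hz, h z⟩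

end QP

namespace IsTh

variable {M : AddSubgroup ℂ} {ϑ : ℂ → ℂ}

theorem ne (h : IsTh M ϑ) {z : ℂ} (hz : z ∉ M) : ϑ z ≠ 0 := fun e => hz ((h.zero_iff z).1 e)

theorem deriv_ne (h : IsTh M ϑ) {m : ℂ} (hm : m ∈ M) : deriv ϑ m ≠ 0 := by
  obtain ⟨η, c, e⟩ := h.qp m hm
  have h1 : HasDerivAt (fun z => ϑ (z + m)) (deriv ϑ m) 0 :=
    HasDerivAt.comp_add_const 0 m (by simpa using (h.diff m).hasDerivAt)
  have h2 := ((((hasDerivAt_id (0 : ℂ)).const_mul η).add_const c).cexp).mul (h.diff 0).hasDerivAt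
  rw [funext e] at h1
  rw [h1.unique h2, (h.zero_iff 0).2 M.zero_mem, mul_zero, zero_add]
  exact mul_ne_zero (Complex.exp_ne_zero _) h.simple

/-- The order of a translate of a theta function. -/
theorem order (h : IsTh M ϑ) (u z : ℂ) :
    analyticOrderAt (fun w => ϑ (w + u)) z = if z + u ∈ M then 1 else 0 := by
  have ha : AnalyticAt ℂ (fun w => ϑ (w + u)) z :=
    (h.diff.comp (differentiable_id.add_const u)).analyticAt z
  split_ifs with hz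
  · refine ha.analyticOrderAt_eq_one_of_zero_deriv_ne_zero ((h.zero_iff _).2 hz) ?_
    rw [deriv_comp_add_const]
    exact h.deriv_ne hz
  · exact ha.analyticOrderAt_eq_zero.2 (h.ne hz)

/-- Homotheties. -/
theorem scale (h : IsTh M ϑ) {M' : AddSubgroup ℂ} {α : ℂ} (hα : α ≠ 0)
    (hM : ∀ z, α * z ∈ M ↔ z ∈ M') : IsTh M' fun z => ϑ (α * z) := by
  refine ⟨h.diff.comp (differentiable_id.const_mul α), fun z => by rw [h.zero_iff, hM], ?_,
    fun m hm => ?_⟩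
  · rw [deriv_comp_mul_left, mul_zero]
    exact smul_ne_zero hα h.simple
  · obtain ⟨η, c, e⟩ := h.qp _ ((hM m).2 hm)
    exact ⟨η * α, c, fun z => by rw [mul_add, e, mul_assoc]⟩

end IsTh

/-- The order of a product. -/
theorem order_prod {ι : Type*} {f : ι → ℂ → ℂ} (s : Finset ι) {z : ℂ}
    (h : ∀ i ∈ s, AnalyticAt ℂ (f i) z) :
    analyticOrderAt (fun w => ∏ i ∈ s, f i w) z = ∑ i ∈ s, analyticOrderAt (f i) z := by
  induction s using Finset.induction_on with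
  | empty => simpa using analyticAt_const.analyticOrderAt_eq_zero.2 one_ne_zero
  | insert i s hi ih =>
    have h' := fun j hj => h j (Finset.mem_insert_of_mem hj)
    simp only [Finset.prod_insert hi, Finset.sum_insert hi]
    rw [← ih h']
    exact analyticOrderAt_mul (h i (Finset.mem_insert_self _ _)) (Finset.analyticAt_fun_prod s h')

/-! ### Forms -/

theorem mem_ker {L : AddSubgroup ℂ} {a : ℂ →+ ℚ} {z : ℂ} : z ∈ L ⊓ a.ker ↔ z ∈ L ∧ a z = 0 :=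
  Iff.rfl

theorem Fm.big {L : AddSubgroup ℂ} {a : ℂ →+ ℚ} (h : Fm L a) : Big (L ⊓ a.ker) := by
  obtain ⟨γ, β, h1, h2⟩ := h.lat
  exact ⟨γ, (h2 _).2 ⟨1, 0, by simp⟩, β, (h2 _).2 ⟨0, 1, by simp⟩, h1.ne'⟩

theorem Fm.theta (hth : H_TH) {L : AddSubgroup ℂ} {a : ℂ →+ ℚ} (h : Fm L a) :
    ∃ ϑ, IsTh (L ⊓ a.ker) ϑ :=
  let ⟨γ, β, h1, h2⟩ := h.lat
  ⟨_, hth _ γ β h1 h2⟩

/-- Homotheties. -/
theorem Fm.scale {L L' : AddSubgroup ℂ} {a : ℂ →+ ℚ} (h : Fm L' a) {α : ℂ} (hα : α ≠ 0)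
    (hL : ∀ z, α * z ∈ L' ↔ z ∈ L) : Fm L (a.comp (AddMonoidHom.mulLeft α)) := by
  obtain ⟨l, hl, h1⟩ := h.one
  obtain ⟨γ, β, h2, h3⟩ := h.lat
  refine ⟨⟨l / α, by rwa [← hL, mul_div_cancel₀ _ hα], by simpa [mul_div_cancel₀ _ hα] using h1⟩,
    fun z hz => h.int _ ((hL z).2 hz), γ / α, β / α, by rwa [div_div_div_cancel_right₀ hα],
    fun z => ?_⟩
  have : z ∈ L ⊓ (a.comp (AddMonoidHom.mulLeft α)).ker ↔ α * z ∈ L' ⊓ a.ker :=
    and_congr (hL z).symm Iff.rfl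
  rw [this, h3]
  refine exists_congr fun j => exists_congr fun k => ⟨fun e => ?_, fun e => ?_⟩
  · field_simp
    linear_combination e
  · rw [e]
    field_simp

/-- Homotheties. -/
theorem IsT.scale {L L' : AddSubgroup ℂ} {a : ℂ →+ ℚ} {T : ℂ → ℂ → U} (h : IsT L' a T) {α : ℂ}
    (hα : α ≠ 0) (hL : ∀ z, α * z ∈ L' ↔ z ∈ L) :
    IsT L (a.comp (AddMonoidHom.mulLeft α)) fun l z => T (α * l) (α * z) := by
  refine ⟨h.coc.pre (AddMonoidHom.mulLeft α) (fun ω => (hL ω).2) (fun x => (hL x).1)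
    (mem_add_iff le_rfl), fun m hm h0 => (h.ker _ ((hL m).2 hm) h0).pre (AddMonoidHom.mulLeft α)
      fun x => (hL x).1, fun ϑ hϑ l hl h1 => ?_⟩
  have h2 : IsTh (L' ⊓ a.ker) fun z => ϑ (α⁻¹ * z) := hϑ.scale (inv_ne_zero hα) fun z => by
    have e : α * (α⁻¹ * z) = z := mul_inv_cancel_left₀ hα z
    refine and_congr ?_ ?_
    · exact (hL _).symm.trans (by rw [e]; rfl)
    · change a (α * (α⁻¹ * z)) = 0 ↔ a z = 0
      rw [e]
  refine ((h.one _ h2 _ ((hL l).2 hl) h1).pre (AddMonoidHom.mulLeft α)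
    fun x => (hL x).1).congr fun x _ => ?_
  simp only [AddMonoidHom.coe_mulLeft]
  rw [← mul_add, inv_mul_cancel_left₀ hα]

/-! ### Setups -/

section Setup

variable (S : F.Setup)

theorem fm : Fm S.L S.a :=
  ⟨⟨S.lam, S.lam_mem, S.a_lam⟩, fun _ hz => S.a_exists hz, S.γ, S.β, S.βγ_pos,
    fun _ => S.mem_M_iff⟩

theorem isTh : IsTh (S.L ⊓ S.a.ker) S.ϑ := by
  have h := F.th_thm S
  obtain ⟨b, -, hb⟩ := h.quad
  exact ⟨h.diff, h.zero_iff, h.deriv_ne 0 S.M.zero_mem, fun m hm =>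
    ⟨S.η m, b m m, fun z => by rw [h.shift m hm, hb m hm]⟩⟩

theorem countable_L : (S.L : Set ℂ).Countable := by
  refine (Set.countable_range fun n : ℤ × ℤ × ℤ =>
    (n.1 : ℂ) * S.lam + n.2.1 * S.γ + n.2.2 * S.β).mono fun z hz => ?_
  obtain ⟨i, j, k, rfl⟩ := (S.mem_L z).1 hz
  exact ⟨(i, j, k), rfl⟩

theorem countable_line (u : ℂ) {c : ℂ} (hc : c ≠ 0) : {z | u + c * z ∈ S.L}.Countable :=
  (countable_L S).preimage_of_injOn (f := fun z => u + c * z) fun _ _ _ _ e =>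
    mul_left_cancel₀ hc (add_left_cancel e)

/-- The group `L` is not discrete. -/
theorem acc : ∃ᶠ z in 𝓝[≠] (0 : ℂ), z ∈ S.L := by
  have h : Tendsto (fun n : ℕ => S.ε ^ n * S.lam) atTop (𝓝[≠] 0) := by
    refine tendsto_nhdsWithin_iff.2 ⟨?_, Eventually.of_forall fun n => ?_⟩
    · simpa using (tendsto_pow_atTop_nhds_zero_of_norm_lt_one S.ε_norm).mul_const S.lam
    · exact mul_ne_zero (pow_ne_zero _ S.ε_ne) S.lam_ne
  refine h.frequently (Eventually.of_forall fun n => ?_).frequently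
  induction n with
  | zero => simpa using S.lam_mem
  | succ n ih => rw [pow_succ', mul_assoc]; exact S.mul_mem ih

variable {S} {G : S.A → ℂ}

theorem ed_line {u v : ℂ} (h : u - S.ε * v ∈ S.L) (κ : ℂ) :
    (fun z => S.ed G (u + S.ε * (κ * z)) (v + κ * z)) =
      S.sl G (S.pt u v + S.p) ∘ fun z => κ * z := by
  funext z
  have h' : u + S.ε * (κ * z) - S.ε * (v + κ * z) ∈ S.L := by convert h using 1; ring
  simp only [F.Setup.ed, F.Setup.sl, Function.comp]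
  congr 1
  apply S.ext
  · simp [S.x₁_pt h, S.x₁_pt h']
    ring
  · simp [S.x₂_pt h, S.x₂_pt h']

theorem ed_mer (hG : S.GH G) {u v : ℂ} (h : u - S.ε * v ∈ S.L) (κ : ℂ) :
    MeromorphicAt (fun z => S.ed G (u + S.ε * (κ * z)) (v + κ * z)) 0 := by
  rw [ed_line h]
  exact (hG.meromorphicAt _ _).comp_analyticAt (by fun_prop)

theorem not_lat {u v : ℂ} (h : u - S.ε * v ∈ S.L) (hu : u ∉ S.L) : ¬ S.Lat (S.pt u v + S.p) := by
  rw [S.lat_add_iff S.lat_p, F.Setup.Lat, S.x₁_pt h]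
  exact hu

theorem ed_an (hG : S.GH G) {u v : ℂ} (h : u - S.ε * v ∈ S.L) (hu : u ∉ S.L) (κ : ℂ) :
    AnalyticAt ℂ (fun z => S.ed G (u + S.ε * (κ * z)) (v + κ * z)) 0 := by
  rw [ed_line h]
  refine AnalyticAt.comp_of_eq (hG.analyticAt _ 0 fun e => not_lat h hu ?_) (by fun_prop) (by simp)
  simpa using (S.pole_iff.1 e).1

theorem ed_ne (hG : S.GH G) {u v : ℂ} (h : u - S.ε * v ∈ S.L) (hu : u ∉ S.L) :
    S.ed G u v ≠ 0 :=
  hG.ne_zero (fun e => not_lat h hu (S.pole_iff.1 e).1) fun e => not_lat h hu (S.zero_iff.1 e).1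

end Setup

end

end Pool.Agent.P.MP_29cb78_nt.H
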