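import Pool.Agent.P.MP_29cb78_nt.H.Defs

/-!
The comparison principle.
-/

namespace Pool.Agent.P.MP_29cb78_nt.H

open Filter Topology E E2

namespace Cmp

variable {B : Type} [AddCommGroup B] {ι : ℂ →+ B} {Λ : AddSubgroup B} {bad : B → Prop} {f : B → ℂ}

/-- The properties which are stable under differences. -/
structure Good (ι : ℂ →+ B) (Λ : AddSubgroup B) (bad : B → Prop) (f : B → ℂ) : Prop where
  mer : ∀ x, MeromorphicAt (fun z => f (x + ι z)) 0
  reg : ∀ x, ¬ bad x → AnalyticAt ℂ (fun z => f (x + ι z)) 0 ∧ f x ≠ 0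
  cnt : ∀ x, {z | bad (x + ι z)}.Countable
  inv : ∀ ω ∈ Λ, ∀ x, bad (x + ω) ↔ bad x

/-- The leading coefficient along the line through `x`. -/
noncomputable def lc (ι : ℂ →+ B) (f : B → ℂ) (x : B) : ℂ :=
  meromorphicTrailingCoeffAt (fun z => f (x + ι z)) 0

/-- The degree is less than `n`. -/
def Z : ℕ → (B → U) → Prop
  | 0, Q => ∀ x, Q x = 0
  | n + 1, Q => ∀ a, Z n fun x => Q (x + a) - Q x

theorem Z_of {n : ℕ} {Q : B → U} (h : PolyLE n Q) : Z (n + 1) Q := by
  induction n generalizing Q with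
  | zero => exact fun a x => sub_eq_zero.2 (h _ _)
  | succ n ih => exact fun a => ih (h a)

theorem shift (f : B → ℂ) (x : B) (c : ℂ) :
    (fun z => f (x + ι c + ι z)) = (fun z => f (x + ι z)) ∘ (· + c) :=
  funext fun z => by simp only [Function.comp, map_add, add_assoc, add_comm (ι c)]

theorem ne_top (h : ∀ x, MeromorphicAt (fun z => f (x + ι z)) 0) {x : B}
    (e : meromorphicOrderAt (fun z => f (x + ι z)) 0 ≠ ⊤) (c : ℂ) :
    meromorphicOrderAt (fun z => f (x + ι c + ι z)) 0 ≠ ⊤ := by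
  rw [shift, meromorphicOrderAt_comp_add_const_eq_meromorphicOrderAt]
  refine MeromorphicOn.meromorphicOrderAt_ne_top_of_isPreconnected (U := Set.univ)
    (fun z _ => ?_) isPreconnected_univ trivial trivial e
  have := h (x + ι z)
  rwa [shift, meromorphicAt_comp_add_const_iff_meromorphicAt, zero_add] at this

theorem Good.ex (h : Good ι Λ bad f) (x : B) : ∃ z, ¬ bad (x + ι z) := by
  by_contra e
  refine not_countable_complex ((h.cnt x).mono fun z _ => ?_)
  exact not_not.1 fun e' => e ⟨z, e'⟩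

theorem Good.eq (h : Good ι Λ bad f) {x : B} (e : ¬ bad x) : lc ι f x = f x := by
  simpa [lc] using (h.reg x e).1.meromorphicTrailingCoeffAt_of_ne_zero (by simpa using (h.reg x e).2)

theorem Good.ne (h : Good ι Λ bad f) (x : B) : lc ι f x ≠ 0 := by
  obtain ⟨z, e⟩ := h.ex x
  refine (h.mer x).meromorphicTrailingCoeffAt_ne_zero ?_
  have := ne_top h.mer (x := x + ι z) (fun e' => (h.reg _ e).2 ?_) (-z)
  · simpa using this
  · rw [← h.eq e]
    exact MeromorphicAt.meromorphicTrailingCoeffAt_of_order_eq_top e'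

theorem Good.diff (h : Good ι Λ bad f) (a : B) :
    Good ι Λ (fun x => bad (x + a) ∨ bad x) fun x => f (x + a) / f x where
  mer x := by simpa only [add_right_comm x _ a] using (h.mer (x + a)).fun_div (h.mer x)
  reg x e := by
    rw [not_or] at e
    refine ⟨?_, div_ne_zero (h.reg _ e.1).2 (h.reg _ e.2).2⟩
    simpa only [add_right_comm x _ a] using (h.reg _ e.1).1.fun_div (h.reg _ e.2).1
      (by simpa using (h.reg _ e.2).2)
  cnt x := by
    simp only [add_right_comm x _ a]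
    exact (h.cnt (x + a)).union (h.cnt x)
  inv ω hω x := by rw [add_right_comm, h.inv ω hω, h.inv ω hω]

theorem Good.div (h : Good ι Λ bad f) (a x : B) :
    lc ι (fun x => f (x + a) / f x) x = lc ι f (x + a) / lc ι f x := by
  simp only [lc, add_right_comm x _ a, div_eq_mul_inv]
  rw [(h.mer _).meromorphicTrailingCoeffAt_fun_mul (h.mer x).fun_inv,
    meromorphicTrailingCoeffAt_fun_inv]

theorem Good.line (h : Good ι Λ bad f) (h1 : ∀ ω ∈ Λ, ∀ x, ¬ bad x → f (x + ω) = f x)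
    (h2 : ∃ᶠ z in 𝓝[≠] (0 : ℂ), ι z ∈ Λ) {y : B} (e : ¬ bad y) (c : ℂ) :
    lc ι f (y + ι c) = f y := by
  have h3 := ((h.reg y e).1.frequently_eq_iff_eventually_eq analyticAt_const).1
    (h2.mono fun z hz => h1 _ hz y e)
  have h4 : meromorphicOrderAt (fun z => f (y + ι c + ι z) - f y) 0 = ⊤ := by
    by_contra e'
    refine ne_top (f := fun x => f x - f y) (fun x => (h.mer x).fun_sub (.const _ _)) e' (-c)
      (meromorphicOrderAt_eq_top_iff.2 ?_)
    filter_upwards [nhdsWithin_le_nhds h3] with z hz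
    simpa [sub_eq_zero] using hz
  rw [lc, meromorphicTrailingCoeffAt_congr_nhdsNE (f₂ := fun _ => f y),
    meromorphicTrailingCoeffAt_const]
  exact (meromorphicOrderAt_eq_top_iff.1 h4).mono fun z => sub_eq_zero.1

theorem main (h2 : ∀ x, ∃ z, x - ι z ∈ Λ) (h3 : ∃ᶠ z in 𝓝[≠] (0 : ℂ), ι z ∈ Λ) (n : ℕ)
    (h : Good ι Λ bad f)
    (h1 : ∀ ω ∈ Λ, ∃ Q, Z n Q ∧ ∀ x, ¬ bad x → lg (f (x + ω)) - lg (f x) = Q x) :
    PolyLE n fun x => lg (lc ι f x) := by
  induction n generalizing bad f with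
  | zero =>
    have h4 : ∀ ω ∈ Λ, ∀ x, ¬ bad x → f (x + ω) = f x := fun ω hω x e => by
      obtain ⟨Q, a, b⟩ := h1 ω hω
      exact lg_inj (h.reg _ (mt (h.inv ω hω x).1 e)).2 (h.reg _ e).2
        (sub_eq_zero.1 ((b x e).trans (a x)))
    obtain ⟨c, e⟩ := h.ex 0
    have h5 : ∀ x, lc ι f x = f (0 + ι c) := fun x => by
      obtain ⟨z, hz⟩ := h2 x
      rw [← h4 _ hz _ e, ← h.line h4 h3 (mt (h.inv _ hz _).1 e) (z - c), map_sub]
      congr 1
      abel
    exact fun x y => congrArg lg ((h5 x).trans (h5 y).symm)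
  | succ n ih =>
    intro a
    refine (ih (h.diff a) fun ω hω => ?_).congr fun x => ?_
    · obtain ⟨Q, h4, h5⟩ := h1 ω hω
      refine ⟨_, h4 a, fun x e => ?_⟩
      rw [not_or] at e
      rw [← h5 _ e.1, ← h5 _ e.2, add_right_comm x ω a, lg_div (h.reg _ e.1).2 (h.reg _ e.2).2,
        lg_div (h.reg _ (mt (h.inv ω hω _).1 e.1)).2 (h.reg _ (mt (h.inv ω hω _).1 e.2)).2]
      abel
    · rw [h.div, lg_div (h.ne _) (h.ne _)]

end Cmp

theorem cmp_thm : H_CMP := by
  intro B _ ι bad f Λ h1 h2 h3 h4 h5 h6 h7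
  have h : Cmp.Good ι Λ bad f := ⟨h1, h2, h3, h4⟩
  exact ⟨_, Cmp.main h6 h7 3 h fun ω hω => (h5 ω hω).imp fun Q e => ⟨Cmp.Z_of e.1, e.2⟩,
    fun x e => congrArg lg (h.eq e).symm⟩

end Pool.Agent.P.MP_29cb78_nt.H
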