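import Pool.Agent.P.MP_29cb78_nt.E2.Mul
import Pool.Agent.P.MP_29cb78_nt.F.Base

/-!
Definitions and statements for the comparison of gamma functions.
-/

namespace Pool.Agent.P.MP_29cb78_nt.H

open Filter Topology E E2
open scoped Classical

noncomputable section

/-- The nonzero complex numbers, written additively. -/
abbrev U := Additive ℂˣ

/-- Off the bad points, `F` agrees with a polynomial map of degree at most `d`. -/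
def Ng {B : Type} [AddCommGroup B] (d : ℕ) (bad : B → Prop) (F : B → U) : Prop :=
  ∃ Q : B → U, PolyLE d Q ∧ ∀ x, ¬ bad x → F x = Q x

/-- A cocycle of `Λ` modulo quadratic maps. -/
structure Coc {B : Type} [AddCommGroup B] (bad : B → Prop) (Λ : AddSubgroup B)
    (D : B → B → U) : Prop where
  bad_iff : ∀ ω ∈ Λ, ∀ x, bad (x + ω) ↔ bad x
  add : ∀ ω ∈ Λ, ∀ ω' ∈ Λ, Ng 2 bad fun x => D (ω + ω') x - D ω x - D ω' (x + ω)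

/-- Quasi-periodic with exponential multipliers. -/
def QP (M : AddSubgroup ℂ) (f : ℂ → ℂ) : Prop :=
  ∀ m ∈ M, ∃ η c : ℂ, ∀ z, f (z + m) = Complex.exp (η * z + c) * f z

/-- A theta function of `M`. -/
structure IsTh (M : AddSubgroup ℂ) (ϑ : ℂ → ℂ) : Prop where
  diff : Differentiable ℂ ϑ
  zero_iff : ∀ z, ϑ z = 0 ↔ z ∈ M
  simple : deriv ϑ 0 ≠ 0
  qp : QP M ϑ

/-- `M` contains a lattice. -/
def Big (M : AddSubgroup ℂ) : Prop := ∃ γ ∈ M, ∃ β ∈ M, (β / γ).im ≠ 0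

/-- A primitive integral form on `L` whose kernel is a lattice. -/
structure Fm (L : AddSubgroup ℂ) (a : ℂ →+ ℚ) : Prop where
  one : ∃ l ∈ L, a l = 1
  int : ∀ z ∈ L, ∃ k : ℤ, a z = k
  lat : ∃ γ β : ℂ, 0 < (β / γ).im ∧ ∀ z, z ∈ L ⊓ a.ker ↔ ∃ j k : ℤ, z = j * γ + k * β

/-- The two forms have the same orientation. -/
def Rel (L : AddSubgroup ℂ) (a b : ℂ →+ ℚ) : Prop :=
  ∃ (c : ℝ) (w : ℂ), 0 < c ∧ ∀ l ∈ L, (b l : ℝ) = c * a l + (w * l).re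

/-- The system of theta multipliers of the form `a`. -/
structure IsT (L : AddSubgroup ℂ) (a : ℂ →+ ℚ) (T : ℂ → ℂ → U) : Prop where
  coc : Coc (· ∈ L) L T
  ker : ∀ m ∈ L, a m = 0 → Ng 2 (· ∈ L) (T m)
  one : ∀ ϑ, IsTh (L ⊓ a.ker) ϑ → ∀ l ∈ L, a l = 1 →
    Ng 2 (· ∈ L) fun z => T l z - lg (ϑ (z + l))

/-- A meromorphic function with the multipliers `D`. -/
structure IsK (L : AddSubgroup ℂ) (D : ℂ → ℂ → U) (K : ℂ → ℂ) : Prop where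
  mer : ∀ z, MeromorphicAt K z
  reg : ∀ z, z ∉ L → AnalyticAt ℂ K z ∧ K z ≠ 0
  sh : ∀ l ∈ L, Ng 2 (· ∈ L) fun z => lg (K (z + l)) - lg (K z) - D l z

/-! ### Statements -/

/-- The comparison principle. -/
def H_CMP : Prop := ∀ (B : Type) [AddCommGroup B] (ι : ℂ →+ B) (bad : B → Prop) (f : B → ℂ)
  (Λ : AddSubgroup B), (∀ x, MeromorphicAt (fun z => f (x + ι z)) 0) →
  (∀ x, ¬ bad x → AnalyticAt ℂ (fun z => f (x + ι z)) 0 ∧ f x ≠ 0) →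
  (∀ x, {z | bad (x + ι z)}.Countable) → (∀ ω ∈ Λ, ∀ x, bad (x + ω) ↔ bad x) →
  (∀ ω ∈ Λ, Ng 2 bad fun x => lg (f (x + ω)) - lg (f x)) →
  (∀ x, ∃ z, x - ι z ∈ Λ) → (∃ᶠ z in 𝓝[≠] (0 : ℂ), ι z ∈ Λ) → Ng 3 bad fun x => lg (f x)

/-- Two theta functions with the same divisor. -/
def H_TQ : Prop := ∀ (M : AddSubgroup ℂ) (f g : ℂ → ℂ), Big M → Differentiable ℂ f →
  Differentiable ℂ g → QP M f → QP M g → (∀ z, analyticOrderAt f z = analyticOrderAt g z) →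
  (∃ z, g z ≠ 0) → ∃ Q : ℂ → U, PolyLE 2 Q ∧ ∀ z, f z = ex (Q z) * g z

/-- The short theta product is a theta function. -/
def H_TH : Prop := ∀ (M : AddSubgroup ℂ) (γ β : ℂ), 0 < (β / γ).im →
  (∀ z, z ∈ M ↔ ∃ j k : ℤ, z = j * γ + k * β) → IsTh M fun z => th0 (z / γ) (β / γ)

/-- The standard elliptic gamma function. -/
def H_GAM : Prop := ∀ τ σ : ℂ, 0 < τ.im → 0 < σ.im → ∃ Γ : ℂ → ℂ, (∀ z, MeromorphicAt Γ z) ∧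
  ∀ z, (¬ ∃ i j k : ℤ, z = i + j * τ + k * σ) → AnalyticAt ℂ Γ z ∧ Γ z ≠ 0 ∧ Γ (z + 1) = Γ z ∧
    Γ (z + τ) = th0 z σ * Γ z ∧ Γ (z + σ) = th0 z τ * Γ z

/-- Systems of multipliers exist. -/
def H_TEX : Prop := ∀ (L : AddSubgroup ℂ) (a : ℂ →+ ℚ), Fm L a → ∃ T, IsT L a T

/-- The mixing function of a unimodular pair. -/
def H_RAW : Prop := ∀ (L : AddSubgroup ℂ) (a b : ℂ →+ ℚ) (Ta Tb : ℂ → ℂ → U) (e₁ e₂ γ : ℂ),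
  (∀ z, z ∈ L ↔ ∃ i j k : ℤ, z = i * e₁ + j * e₂ + k * γ) → a e₁ = 1 → a e₂ = 0 → a γ = 0 →
  b e₁ = 0 → b e₂ = 1 → b γ = 0 → 0 < (e₁ / γ).im → (e₂ / γ).im < 0 →
  IsT L a Ta → IsT L b Tb → ∃ K, IsK L (fun l z => Ta l z - Tb l z) K

/-- One step of the chain of forms. -/
def H_STEP : Prop := ∀ (L : AddSubgroup ℂ) (a b : ℂ →+ ℚ) (s : ℕ), Fm L a → Fm L b → Rel L a b →
  s ≠ 0 → (∀ m ∈ L, a m = 0 → ∃ k : ℤ, b m = k * s) → (∃ m ∈ L, a m = 0 ∧ b m = s) →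
  ∃ (c : ℂ →+ ℚ) (e₁ e₂ γ : ℂ) (s' : ℕ), Fm L c ∧ Rel L c b ∧ s' < s ∧
    (∀ m ∈ L, c m = 0 → ∃ k : ℤ, b m = k * s') ∧ (∃ m ∈ L, c m = 0 ∧ b m = s') ∧
    (∀ z, z ∈ L ↔ ∃ i j k : ℤ, z = i * e₁ + j * e₂ + k * γ) ∧ a e₁ = 1 ∧ a e₂ = 0 ∧ a γ = 0 ∧
    c e₁ = 0 ∧ c e₂ = 1 ∧ c γ = 0 ∧ 0 < (e₁ / γ).im ∧ (e₂ / γ).im < 0

/-- The mixing function of two forms with the same orientation. -/
def H_MIX : Prop := ∀ (L : AddSubgroup ℂ) (a b : ℂ →+ ℚ) (Ta Tb : ℂ → ℂ → U), Fm L a → Fm L b →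
  Rel L a b → IsT L a Ta → IsT L b Tb → ∃ K, IsK L (fun l z => Ta l z - Tb l z) K

/-- The multipliers of the values on the edges. -/
def H_SH : Prop := ∀ (S : F.Setup) (G : S.A → ℂ) (T : ℂ → ℂ → U), S.GH G → IsT S.L S.a T →
  ∀ (B : Type) [AddCommGroup B] (φ₁ φ₂ : B →+ ℂ) (c₁ c₂ l₁ l₂ : ℂ),
    (∀ x, φ₁ x + c₁ - S.ε * (φ₂ x + c₂) ∈ S.L) → l₁ ∈ S.L → l₂ ∈ S.L →
    Ng 2 (fun x => φ₁ x + c₁ ∈ S.L) fun x =>
      lg (S.ed G (φ₁ x + c₁ + l₁) (φ₂ x + c₂ + l₂)) - lg (S.ed G (φ₁ x + c₁) (φ₂ x + c₂)) -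
        (T l₁ (φ₁ x + c₁) - T l₂ (φ₂ x + c₂))

/-- The distribution relation for the multipliers. -/
def H_DT : Prop := ∀ (L L' : AddSubgroup ℂ) (a a' : ℂ →+ ℚ) (T T' : ℂ → ℂ → U) (n : ℕ) (I : Type)
  [Fintype I] (τ : I → ℂ), Fm L a → Fm L' a' → IsT L a T → IsT L' a' T' → L ≤ L' → n ≠ 0 →
  (∀ z, a' z = n * a z) → (∀ j, τ j ∈ L') → (∀ i j, τ i - τ j ∈ L → i = j) →
  (∀ x ∈ L', ∃ j, x - τ j ∈ L) → (∀ j, -(n : ℚ) < a' (τ j) ∧ a' (τ j) ≤ 0) →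
  ∀ l ∈ L, Ng 2 (· ∈ L') fun z => ∑ j, T l (z + τ j) - T' l z

end

end Pool.Agent.P.MP_29cb78_nt.H
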