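import Pool.Agent.P.MP_29cb78_nt.H.KIf

/-!
Line sums, the gamma function and the theta function.
-/

namespace Pool.Agent.P.MP_29cb78_nt.F.KP

open E

open Filter Topology MeasureTheory Set
open scoped Classical Real

namespace KGams

theorem hs_add (n : ℤ) : hs (n + 1 / 2) = if 0 ≤ n then 1 / 2 else -(1 / 2) := by
  refine if_congr ⟨fun h => ?_, fun h => ?_⟩ rfl rfl
  · have : ((-1 : ℤ) : ℝ) < n := by push_cast; linarith
    exact Int.cast_lt.1 this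
  · have : (0 : ℝ) ≤ n := by exact_mod_cast h
    linarith

theorem hs_sub (n : ℤ) : hs (n - 1 / 2) = if 1 ≤ n then 1 / 2 else -(1 / 2) := by
  have := hs_add (n - 1)
  rw [show ((n - 1 : ℤ) : ℝ) + 1 / 2 = n - 1 / 2 by push_cast; ring] at this
  rw [this]
  exact if_congr (by omega) rfl rfl

theorem hs_neg {y : ℝ} (h : y ≠ 0) : hs (-y) = -hs y := by
  rcases h.lt_or_gt with h | h
  · rw [hs, hs, if_pos (neg_pos.2 h), if_neg h.not_gt, neg_neg]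
  · rw [hs, hs, if_pos h, if_neg (neg_neg_of_pos h).not_gt]

theorem geo {c t : ℝ} (hc : 0 < c) (ht : 0 < t) (y : ℝ) :
    HasSum (fun n : ℕ => Real.exp (-(c * (y + n * t))))
      (Real.exp (-(c * y)) * (1 - Real.exp (-(c * t)))⁻¹) := by
  have h := (hasSum_geometric_of_lt_one (Real.exp_pos _).le
    (Real.exp_lt_one_iff.2 (neg_neg_of_pos (mul_pos hc ht)))).mul_left (Real.exp (-(c * y)))
  refine h.congr_fun fun n => ?_
  rw [← Real.exp_nat_mul, ← Real.exp_add]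
  congr 1
  ring

variable (S : F.Setup)

theorem a_ln (ζ : ℂ) (p : ℤ × ℤ) : (S.a (S.ln ζ p) : ℝ) = S.a ζ + p.1 := by
  simp [F.Setup.ln, S.a_int_mul, S.a_lam, S.a_β]

theorem a_lne (x : S.A) (p : ℤ × ℤ) : (S.a (S.ln (S.x₁ x) p / S.ε) : ℝ) =
    S.a (S.x₂ x) + (S.ν x + p.1 * S.ν S.p - S.s * p.2 : ℤ) := by
  have e : S.ln (S.x₁ x) p / S.ε = S.x₂ x + (S.x₁ x - S.ε * S.x₂ x) / S.ε +
      p.1 * (S.lam / S.ε) + p.2 * (S.β / S.ε) := by
    have := S.ε_ne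
    rw [F.Setup.ln]
    field_simp
    ring
  rw [e, map_add, map_add, map_add, S.a_int_mul, S.a_int_mul, ← S.ν_cast, ← S.ν_p, S.a_βε]
  push_cast
  ring

theorem ln_mem (ζ : ℂ) (p : ℤ × ℤ) : S.ln ζ p - ζ ∈ S.L :=
  (S.mem_L _).2 ⟨p.1, 0, p.2, by simp [F.Setup.ln]; ring⟩

/-- The reflection of the indices. -/
def rf : ℤ × ℤ ≃ ℤ × ℤ := (Equiv.subLeft (-1)).prodCongr (Equiv.neg ℤ)

theorem term_eq (h2 : K_JSYM) (m : ℝ) (x : S.A) (p : ℤ × ℤ) :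
    S.wg (S.a (S.x₁ x) - 1 / 2) (S.a (S.x₂ x) + 1 / 2) (S.ln (S.x₁ x) p) *
      JJ m (S.ln (S.x₁ x) p / S.γ) = S.hc m x p - S.hc m (S.p + S.q - x) (rf p) := by
  have e1 : S.ln (S.x₁ (S.p + S.q - x)) (rf p) / S.γ = -(S.ln (S.x₁ x) p / S.γ) := by
    simp [F.Setup.ln, rf]
    ring
  have e2 : (rf p).1 = -1 - p.1 := rfl
  have e3 : (rf p).2 = -p.2 := rfl
  have e4 : S.ν S.p + 1 - S.ν x + (-1 - p.1) * S.ν S.p ≤ S.s * -p.2 ↔
      1 ≤ S.ν x + p.1 * S.ν S.p - S.s * p.2 := by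
    constructor <;> intro h <;> linarith
  rw [F.Setup.wg, a_ln, a_lne, show (S.a (S.x₁ x) : ℝ) + p.1 - (S.a (S.x₁ x) - 1 / 2) =
    p.1 + 1 / 2 by ring, add_sub_add_left_eq_sub, hs_add, hs_sub, F.Setup.hc, F.Setup.hc, e1,
    (h2 m _).2.1, e2, e3, map_sub, map_add, S.ν_q]
  simp only [e4]
  split_ifs <;> first | (exfalso; omega) | ring

end KGams

theorem k_gams (h1 : K_HC) (h2 : K_JSYM) : K_GAMS := by
  intro S x hx
  have hx' : S.Off (S.x₁ (S.p + S.q - x)) := fun b hb h => hx (-b) (by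
    have := S.L.neg_mem (S.L.add_mem hb S.lam_mem)
    simp only [map_sub, map_add, S.x₁_p, S.x₁_q] at this
    rwa [show -b - S.x₁ x = -(b - (S.lam + 0 - S.x₁ x) + S.lam) by ring]) (by
    rw [neg_div, Complex.neg_im, h, neg_zero])
  obtain ⟨a1, a2, a3⟩ := h1 S x hx
  obtain ⟨b1, b2, b3⟩ := h1 S _ hx'
  have hs : ∀ m : ℝ, 0 < m → Summable fun p => S.hc m (S.p + S.q - x) (KGams.rf p) :=
    fun m hm => (KGams.rf.summable_iff (f := S.hc m (S.p + S.q - x))).2 (b1 m hm)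
  refine ⟨fun m hm => ?_, ?_, div_ne_zero b3 a3⟩
  · simp only [F.Setup.LLs, KGams.term_eq S h2]
    exact (a1 m hm).sub (hs m hm)
  · have e : Real.log (‖S.Gam x‖ ^ 2) =
        -Real.log (‖S.Den x‖ ^ 2) - -Real.log (‖S.Den (S.p + S.q - x)‖ ^ 2) := by
      rw [F.Setup.Gam, norm_div, div_pow, Real.log_div (pow_ne_zero _ (norm_ne_zero_iff.2 b3))
        (pow_ne_zero _ (norm_ne_zero_iff.2 a3))]
      ring
    rw [e]
    refine (a2.sub b2).congr' (eventually_mem_nhdsWithin.mono fun m hm => ?_)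
    simp only [F.Setup.LS, F.Setup.LL, KGams.term_eq S h2]
    rw [(a1 m hm).tsum_sub (hs m hm), KGams.rf.tsum_eq (S.hc m (S.p + S.q - x))]
    ring

theorem k_rs (h1 : K_CONE) (h2 : K_JSYM) : K_RS := by
  intro S ζ hζ
  have ht := S.βγ_pos
  have e0 : ∀ k : ℤ, (ζ + k * S.β) / S.γ = ζ / S.γ + k * (S.β / S.γ) := fun k => by ring
  have h0 : ∀ k : ℤ, (ζ / S.γ + k * (S.β / S.γ)).im ≠ 0 := fun k =>
    e0 k ▸ hζ _ ((S.mem_L _).2 ⟨0, 0, k, by simp⟩)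
  simp only [F.Setup.RS, e0]
  generalize ζ / S.γ = z at h0 ⊢
  generalize S.β / S.γ = τ at h0 ht ⊢
  have e1 : ∀ n : ℕ, (z + n * τ).im = z.im + n * τ.im := fun n => by simp
  have e2 : ∀ n : ℕ, ((n + 1) * τ - z).im = τ.im - z.im + n * τ.im := fun n => by
    simp
    ring
  have e3 : ∀ n : ℕ, z + ((-(n + 1) : ℤ) : ℂ) * τ = -((n + 1) * τ - z) := fun n => by
    push_cast
    ring
  obtain ⟨a1, a2, a3, a4⟩ := h1 ℕ (fun n => z + n * τ)
    (fun c hc => by simpa only [e1] using (KGams.geo hc ht _).summable)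
    fun n => by simpa using h0 n
  obtain ⟨b1, b2, b3, b4⟩ := h1 ℕ (fun n => (n + 1) * τ - z)
    (fun c hc => by simpa only [e2] using (KGams.geo hc ht _).summable)
    fun n h => h0 (-(n + 1)) (by rw [e3, Complex.neg_im, h, neg_zero])
  have s1 : ∀ m : ℝ, 0 < m → Summable fun n : ℕ => JJ m (z + ((n : ℤ) : ℂ) * τ) := fun m hm => by
    simpa only [Int.cast_natCast] using a1 m hm
  have s2 : ∀ m : ℝ, 0 < m → Summable fun n : ℕ => JJ m (z + ((-(n + 1) : ℤ) : ℂ) * τ) :=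
    fun m hm => by simpa only [e3, (h2 m _).2.1] using b1 m hm
  have e4 : th0 z τ = (∏' n : ℕ, (1 - ee (z + n * τ))) * ∏' n : ℕ, (1 - ee ((n + 1) * τ - z)) :=
    a3.tprod_mul b3
  refine ⟨fun m hm => Summable.of_nat_of_neg_add_one (s1 m hm) (s2 m hm), ?_,
    e4 ▸ mul_ne_zero a4 b4⟩
  rw [e4, norm_mul, mul_pow, Real.log_mul (pow_ne_zero _ (norm_ne_zero_iff.2 a4))
    (pow_ne_zero _ (norm_ne_zero_iff.2 b4)), neg_add]
  refine (a2.add b2).congr' (eventually_mem_nhdsWithin.mono fun m (hm : 0 < m) => ?_)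
  have hc : 0 < 2 * π * m := by positivity
  simp only [e1, e2, zm]
  rw [tsum_of_nat_of_neg_add_one (f := fun k : ℤ => JJ m (z + k * τ)) (s1 m hm) (s2 m hm),
    ((KGams.geo hc ht _).div_const m).tsum_eq, ((KGams.geo hc ht _).div_const m).tsum_eq]
  simp only [e3, (h2 m _).2.1, Int.cast_natCast]
  ring

theorem k_llb (h2 : K_JSYM) : K_LLB := by
  intro S m
  have p1 : ∀ (ζ : ℂ) (θ₁ θ₂ : ℝ), ∀ l ∈ S.L, S.LL m (ζ + l) θ₁ θ₂ = S.LL m ζ θ₁ θ₂ ∧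
      (S.LLs m (ζ + l) θ₁ θ₂ ↔ S.LLs m ζ θ₁ θ₂) := by
    intro ζ θ₁ θ₂ l hl
    obtain ⟨i, j, k, rfl⟩ := (S.mem_L l).1 hl
    have e : ∀ p : ℤ × ℤ, S.wg θ₁ θ₂ (S.ln (ζ + (i * S.lam + j * S.γ + k * S.β)) p) *
        JJ m (S.ln (ζ + (i * S.lam + j * S.γ + k * S.β)) p / S.γ) =
        S.wg θ₁ θ₂ (S.ln ζ (Equiv.addRight (i, k) p)) *
          JJ m (S.ln ζ (Equiv.addRight (i, k) p) / S.γ) := fun p => by
      have e1 : S.ln (ζ + (i * S.lam + j * S.γ + k * S.β)) p =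
          S.ln ζ (Equiv.addRight (i, k) p) + j * S.γ := by
        simp [F.Setup.ln]
        ring
      rw [e1, F.Setup.wg, F.Setup.wg, add_div, add_div, mul_div_assoc, mul_div_assoc, div_self S.γ_ne,
        mul_one, (h2 m _).2.2, map_add, map_add, S.a_int_mul, S.a_int_mul, S.a_γ, S.a_γε,
        mul_zero, add_zero, add_zero]
    simp only [F.Setup.LL, F.Setup.LLs, e]
    exact ⟨(Equiv.addRight (i, k)).tsum_eq fun p => S.wg θ₁ θ₂ (S.ln ζ p) * JJ m (S.ln ζ p / S.γ),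
      (Equiv.addRight (i, k)).summable_iff
        (f := fun p => S.wg θ₁ θ₂ (S.ln ζ p) * JJ m (S.ln ζ p / S.γ))⟩
  refine ⟨p1, fun ζ θ₁ θ₂ h => ?_, fun x hx hk => ?_⟩
  · have e : ∀ p : ℤ × ℤ, S.wg (-θ₁) (-θ₂) (S.ln (-ζ) p) * JJ m (S.ln (-ζ) p / S.γ) =
        -(S.wg θ₁ θ₂ (S.ln ζ (Equiv.neg _ p)) * JJ m (S.ln ζ (Equiv.neg _ p) / S.γ)) := fun p => by
      have e1 : S.ln (-ζ) p = -S.ln ζ (Equiv.neg _ p) := by
        simp [F.Setup.ln]
        ring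
      obtain ⟨c1, c2⟩ := h _ (KGams.ln_mem S ζ (Equiv.neg _ p))
      rw [e1, F.Setup.wg, F.Setup.wg, neg_div, neg_div, (h2 m _).2.1, map_neg, map_neg, Rat.cast_neg,
        Rat.cast_neg, neg_sub_neg, neg_sub_neg, ← neg_sub _ θ₁, ← neg_sub _ θ₂,
        KGams.hs_neg (sub_ne_zero.2 c1), KGams.hs_neg (sub_ne_zero.2 c2)]
      ring
    simp only [F.Setup.LL, F.Setup.LLs, e, tsum_neg, summable_neg_iff]
    exact ⟨congrArg _ ((Equiv.neg _).tsum_eq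
      fun p => S.wg θ₁ θ₂ (S.ln ζ p) * JJ m (S.ln ζ p / S.γ)), (Equiv.neg _).summable_iff
        (f := fun p => S.wg θ₁ θ₂ (S.ln ζ p) * JJ m (S.ln ζ p / S.γ))⟩
  · have hi : Function.Injective fun k : ℤ => ((0 : ℤ), k) := Prod.mk_right_injective _
    have hz : ∀ p ∉ range fun k : ℤ => ((0 : ℤ), k),
        (if p.1 = 0 then JJ m (S.ln (S.x₁ x) p / S.γ) else 0) = 0 := fun p hp =>
      if_neg fun h => hp ⟨p.2, Prod.ext h.symm rfl⟩
    have e0 : ∀ k : ℤ, (if ((0 : ℤ), k).1 = 0 then JJ m (S.ln (S.x₁ x) (0, k) / S.γ) else 0) =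
        JJ m ((S.x₁ x + k * S.β) / S.γ) := fun k => by simp [F.Setup.ln]
    have hs := (hi.summable_iff hz).1 (hk.congr fun k => (e0 k).symm)
    have e : ∀ p : ℤ × ℤ, S.wg (S.a (S.x₁ (x + S.p)) - 1 / 2) (S.a (S.x₂ (x + S.p)) + 1 / 2)
        (S.ln (S.x₁ x) p) * JJ m (S.ln (S.x₁ x) p / S.γ) =
        S.wg (S.a (S.x₁ x) - 1 / 2) (S.a (S.x₂ x) + 1 / 2) (S.ln (S.x₁ x) p) *
          JJ m (S.ln (S.x₁ x) p / S.γ) - if p.1 = 0 then JJ m (S.ln (S.x₁ x) p / S.γ) else 0 := by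
      intro p
      rw [F.Setup.wg, F.Setup.wg, KGams.a_ln, map_add S.x₁, map_add S.x₂, S.x₁_p, S.x₂_p, add_zero, map_add,
        S.a_lam, Rat.cast_add, Rat.cast_one, show (S.a (S.x₁ x) : ℝ) + p.1 -
          (S.a (S.x₁ x) + 1 - 1 / 2) = p.1 - 1 / 2 by ring, show (S.a (S.x₁ x) : ℝ) + p.1 -
          (S.a (S.x₁ x) - 1 / 2) = p.1 + 1 / 2 by ring, KGams.hs_add, KGams.hs_sub]
      split_ifs <;> first | (exfalso; omega) | ring
    have e1 : S.x₁ (x + S.p) = S.x₁ x + S.lam := by rw [map_add, S.x₁_p]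
    rw [F.Setup.LS, congrArg (fun ζ => S.LL m ζ _ _) e1, (p1 _ _ _ _ S.lam_mem).1, F.Setup.LL]
    simp only [e]
    rw [Summable.tsum_sub hx hs, ← hi.tsum_eq (Function.support_subset_iff'.2 hz)]
    exact congrArg _ (tsum_congr e0)

end Pool.Agent.P.MP_29cb78_nt.F.KP
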