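import Pool.Agent.P.MP_29cb78_nt.H.KIf

/-!
The Kronecker limit formula for complex cubic fields.
-/

namespace Pool.Agent.P.MP_29cb78_nt.F.KP

open E

open Filter Topology MeasureTheory Set
open scoped Classical Real

noncomputable section

namespace KKlf

variable (S : F.Setup)

lemma N_mem {v : ℂ} (hv : (S.ε - 1) * v ∈ S.L) : (S.N : ℂ) * v ∈ S.L := by
  apply S.N_mul
  convert S.L.add_mem (S.mul_mem hv) hv using 1
  ring

lemma tt_mem {v : ℂ} (hv : (S.ε - 1) * v ∈ S.L) (j : Fin 4) :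
    (tt S.N j : ℂ) * v - v ∈ S.L := by
  have := S.L.nsmul_mem (N_mem S hv) (j : ℕ)
  convert this using 1
  simp only [tt, nsmul_eq_mul]
  push_cast
  ring

lemma diag_mem {v : ℂ} (hv : (S.ε - 1) * v ∈ S.L) (t : ℤ) :
    (t : ℂ) * v - S.ε * (t * v) ∈ S.L := by
  have := S.L.zsmul_mem hv (-t)
  convert this using 1
  simp only [zsmul_eq_mul]
  push_cast
  ring

lemma off_add {ζ l : ℂ} (h : S.Off ζ) (hl : l ∈ S.L) : S.Off (ζ + l) := fun b hb => by
  apply h b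
  convert S.L.add_mem hb hl using 1
  ring

lemma off_neg {ζ : ℂ} (h : S.Off ζ) : S.Off (-ζ) := fun b hb => by
  have := h (-b) (by convert S.L.neg_mem hb using 1; ring)
  rw [neg_div, Complex.neg_im] at this
  exact fun h0 => this (by rw [h0, neg_zero])

lemma a_half {v b : ℂ} (hb : b - v ∈ S.L) (k : ℤ) : (S.a b : ℝ) ≠ S.a v + k + 1 / 2 := by
  obtain ⟨i, hi⟩ := S.a_exists hb
  rw [map_sub] at hi
  have h1 : (S.a b : ℝ) = S.a v + i := by
    have : S.a b = S.a v + i := by linarith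
    rw [this]
    push_cast
    ring
  intro h
  have h2 : ((2 * i : ℤ) : ℝ) = (2 * k + 1 : ℤ) := by
    push_cast
    linarith
  have h3 : 2 * i = 2 * k + 1 := by exact_mod_cast h2
  omega

lemma div_sub {v b : ℂ} (hv : (S.ε - 1) * v ∈ S.L) (hb : b - v ∈ S.L) : b / S.ε - v ∈ S.L := by
  have := S.div_mem (S.L.sub_mem hb hv)
  convert this using 1
  field_simp [S.ε_ne]
  ring

/-- The vertices. -/
def θ (v : ℂ) (j : Fin 4 × Bool) : ℝ :=
  (tt S.N j.1 : ℝ) * S.a v + if j.2 then 1 / 2 else -(1 / 2)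

lemma θ_half {v : ℂ} (hv : (S.ε - 1) * v ∈ S.L) (j : Fin 4 × Bool) :
    ∃ k : ℤ, θ S v j = S.a v + k + 1 / 2 := by
  obtain ⟨i, hi⟩ := S.a_exists (tt_mem S hv j.1)
  rw [map_sub, S.a_int_mul] at hi
  have h1 : (tt S.N j.1 : ℝ) * S.a v = S.a v + i := by
    have : (tt S.N j.1 : ℚ) * S.a v = S.a v + i := by linarith
    exact_mod_cast this
  rcases j with ⟨j, _ | _⟩
  · exact ⟨i - 1, by simp only [θ, h1]; push_cast; ring⟩
  · exact ⟨i, by simp only [θ, h1]; simp⟩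

lemma pos_case (hL : K_LLB) (hG : K_GAMS) {v : ℂ} (hv : (S.ε - 1) * v ∈ S.L) (ho : S.Off v)
    (j : Fin 4) {m : ℝ} (hm : 0 < m) :
    S.LS m (S.pt (tt S.N j * v) (tt S.N j * v) + S.p) =
      S.LL m v (θ S v (j, true)) (θ S v (j, true)) ∧
    S.LLs m v (θ S v (j, true)) (θ S v (j, true)) := by
  set x := S.pt (tt S.N j * v) (tt S.N j * v) + S.p with hx
  have hl : (tt S.N j : ℂ) * v - v + S.lam ∈ S.L := S.L.add_mem (tt_mem S hv j) S.lam_mem
  have h1 : S.x₁ x = v + (tt S.N j * v - v + S.lam) := by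
    rw [hx, map_add, S.x₁_pt (diag_mem S hv _), S.x₁_p]
    ring
  have h2 : S.x₂ x = tt S.N j * v := by
    rw [hx, map_add, S.x₂_pt (diag_mem S hv _), S.x₂_p, add_zero]
  have a1 : (S.a (S.x₁ x) : ℝ) - 1 / 2 = θ S v (j, true) := by
    rw [h1, show v + (tt S.N j * v - v + S.lam) = tt S.N j * v + S.lam by ring, map_add,
      S.a_int_mul, S.a_lam]
    simp only [θ, if_true]
    push_cast
    ring
  have a2 : (S.a (S.x₂ x) : ℝ) + 1 / 2 = θ S v (j, true) := by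
    rw [h2, S.a_int_mul]
    simp only [θ, if_true]
    push_cast
    ring
  have ho' : S.Off (S.x₁ x) := h1 ▸ off_add S ho hl
  have hs := (hG S x ho').1 m hm
  rw [a1, a2, h1] at hs
  have hb := (hL S m).1 v (θ S v (j, true)) (θ S v (j, true)) _ hl
  refine ⟨?_, hb.2.1 hs⟩
  rw [F.Setup.LS, a1, a2, h1, hb.1]

lemma neg_case (hL : K_LLB) (hG : K_GAMS) {v : ℂ} (hv : (S.ε - 1) * v ∈ S.L) (ho : S.Off v)
    (j : Fin 4) {m : ℝ} (hm : 0 < m) :
    S.LS m (S.pt ((-tt S.N j : ℤ) * v) ((-tt S.N j : ℤ) * v) + S.p) =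
      -S.LL m v (θ S v (j, false)) (θ S v (j, false)) ∧
    S.LLs m v (θ S v (j, false)) (θ S v (j, false)) := by
  set x := S.pt ((-tt S.N j : ℤ) * v) ((-tt S.N j : ℤ) * v) + S.p with hx
  have hl : -((tt S.N j : ℂ) * v - v) + S.lam ∈ S.L :=
    S.L.add_mem (S.L.neg_mem (tt_mem S hv j)) S.lam_mem
  have h1 : S.x₁ x = -v + (-(tt S.N j * v - v) + S.lam) := by
    rw [hx, map_add, S.x₁_pt (diag_mem S hv _), S.x₁_p]
    push_cast
    ring
  have h2 : S.x₂ x = (-tt S.N j : ℤ) * v := by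
    rw [hx, map_add, S.x₂_pt (diag_mem S hv _), S.x₂_p, add_zero]
  have a1 : (S.a (S.x₁ x) : ℝ) - 1 / 2 = -θ S v (j, false) := by
    rw [h1, show -v + (-(tt S.N j * v - v) + S.lam) = (-tt S.N j : ℤ) * v + S.lam by
      push_cast; ring, map_add, S.a_int_mul, S.a_lam]
    simp only [θ]
    push_cast
    ring
  have a2 : (S.a (S.x₂ x) : ℝ) + 1 / 2 = -θ S v (j, false) := by
    rw [h2, S.a_int_mul]
    simp only [θ]
    push_cast
    ring
  have ho' : S.Off (S.x₁ x) := h1 ▸ off_add S (off_neg S ho) hl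
  have hs := (hG S x ho').1 m hm
  rw [a1, a2, h1] at hs
  have hb := (hL S m).1 (-v) (-θ S v (j, false)) (-θ S v (j, false)) _ hl
  obtain ⟨k, hk⟩ := θ_half S hv (j, false)
  have hn := (hL S m).2.1 v (θ S v (j, false)) (θ S v (j, false)) fun b hb =>
    ⟨hk ▸ a_half S hb k, hk ▸ a_half S (div_sub S hv hb) k⟩
  refine ⟨?_, hn.2.1 (hb.2.1 hs)⟩
  rw [F.Setup.LS, a1, a2, h1, hb.1, hn.1]

end KKlf

open KKlf in
theorem k_klf (hN : K_NEG) (hL : K_LLB) (hG : K_GAMS) (h7 : K_K7) (hD : K_DAT) (hZ : K_ZC)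
    (h1 : K_KL1) (hlim : K_LIM) : K_KLF := by
  intro S G v r ρ hGH hR
  obtain ⟨D, dz, dx, dS, dln, dwt, dinv, dZ⟩ := hD S v r ρ hR
  obtain ⟨n1, n2, hK⟩ := h7 S G hGH hR.lam_im v hR.fix hR.off
  refine ⟨n1, n2, ?_⟩
  obtain ⟨s1, s2, -, -⟩ := hN.1 S.N
  set c : Fin 4 × Bool → ℝ := fun j => cc S.N j.1 with hc
  have hfam : D.Fam c (θ S v) := by
    refine ⟨fun j => dx ▸ θ_half S hR.fix j, ?_⟩
    rw [Fintype.sum_prod_type]
    have : ∀ j : Fin 4, ∑ b : Bool, c (j, b) * θ S v (j, b) =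
        2 * (S.a v : ℝ) * ((cc S.N j : ℝ) * tt S.N j) := fun j => by
      simp only [Fintype.sum_bool, hc, θ, if_true]
      simp
      ring
    rw [Finset.sum_congr rfl fun j _ => this j, ← Finset.mul_sum, s2, mul_zero]
  have hsum : ∑ j, c j = 12 * (S.N : ℝ) ^ 3 := by
    rw [Fintype.sum_prod_type]
    simp only [Fintype.sum_bool, hc, Finset.sum_add_distrib, s1]
    ring
  obtain ⟨k1, k2, k3⟩ := h1 D _ c (θ S v) hfam
  have hLLs : ∀ m : ℝ, 0 < m → ∀ j, S.LLs m v (θ S v j) (θ S v j) := by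
    rintro m hm ⟨j, _ | _⟩
    · exact (neg_case S hL hG hR.fix hR.off j hm).2
    · exact (pos_case S hL hG hR.fix hR.off j hm).2
  have hterm : ∀ (m : ℝ) (p : ℤ × ℤ), (∑ j, c j * D.wt (θ S v j) ![p.1, 0, p.2]) *
      JJ m (D.S ![p.1, 0, p.2] / D.z 1) =
      ∑ j, c j * (S.wg (θ S v j) (θ S v j) (S.ln v p) * JJ m (S.ln v p / S.γ)) := by
    intro m p
    rw [Finset.sum_mul]
    refine Finset.sum_congr rfl fun j _ => ?_
    rw [dwt, dln, dz, mul_assoc]
  have hl := hlim D (fun n => ∑ j, c j * D.wt (θ S v j) n)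
    (fun n => Finset.sum_congr rfl fun j _ => by rw [dinv])
    (fun n => dz ▸ hR.off _ (dS n)) k1 k2 (fun m hm => by
      simp only [hterm]
      exact summable_sum fun j _ => (hLLs m hm j).mul_left _)
  have heq : ∀ m : ℝ, 0 < m → ∑' p : ℤ × ℤ, (∑ j, c j * D.wt (θ S v j) ![p.1, 0, p.2]) *
      JJ m (D.S ![p.1, 0, p.2] / D.z 1) =
      Fn S.N fun t => S.LS m (S.pt (t * v) (t * v) + S.p) := by
    intro m hm
    simp only [hterm]
    rw [Summable.tsum_finsetSum fun j _ => (hLLs m hm j).mul_left _, Fn, Fintype.sum_prod_type]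
    refine Finset.sum_congr rfl fun j _ => ?_
    rw [(pos_case S hL hG hR.fix hR.off j hm).1, (neg_case S hL hG hR.fix hR.off j hm).1,
      Fintype.sum_bool, tsum_mul_left, tsum_mul_left]
    simp only [hc, F.Setup.LL]
    ring
  have hu := tendsto_nhds_unique
    (hl.congr' (eventually_nhdsWithin_of_forall (s := Ioi 0) fun m hm => heq m hm)) hK
  refine (hZ D).2.congr (fun s _ => dZ s) ?_
  have hN0 : (S.N : ℝ) ≠ 0 := by exact_mod_cast S.N_ne
  rw [← hu, k3, hsum]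
  congr 1
  field_simp

end

end Pool.Agent.P.MP_29cb78_nt.F.KP
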