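import Pool.Agent.P.MP_29cb78_nt.E.KAll
import Pool.Agent.P.MP_29cb78_nt.E2.Mul
import Pool.Agent.P.MP_29cb78_nt.F.Alb
import Pool.Agent.P.MP_29cb78_nt.F.Cfg
import Pool.Agent.P.MP_29cb78_nt.H.KGams
import Pool.Agent.P.MP_29cb78_nt.H.KHc
import Pool.Agent.P.MP_29cb78_nt.H.KK7
import Pool.Agent.P.MP_29cb78_nt.H.KKlf
import Pool.Agent.P.MP_29cb78_nt.H.KStep

/-!
The Kronecker limit formula for the normalised values.
-/

namespace Pool.Agent.P.MP_29cb78_nt.F.KP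

theorem gams₁ : K_GAMS := k_gams (k_hc E.cone') E.k_jsym

theorem klf₁ : K_KLF :=
  k_klf E.k_neg (k_llb E.k_jsym) gams₁
    (k_k7 E.k_neg k_ss gams₁ (k_step gams₁ (k_rs E.cone' E.k_jsym) (k_llb E.k_jsym))) k_dat E.zc'
    E.kl1' (E.k_lim E.k_line)

theorem AL_eq (S : F.Setup) (G : S.A → ℂ) (N : ℕ) (v : ℂ) :
    S.AL G N v = S.al G N v / S.al G N (-v) := by
  simp only [F.Setup.AL, FF, F.Setup.al, F.Setup.ed, ← Finset.prod_div_distrib, div_zpow,
    Int.cast_neg, neg_mul, mul_neg]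

theorem klf_all : S_KLF := by
  intro S G v r ρ N hG hR hN hv
  obtain ⟨h1, h2, h3⟩ := klf₁ S G v r ρ hG hR
  have hoff : v ∉ S.L := fun h => hR.r_ne 0 (by simpa using h) (map_zero r)
  obtain ⟨a0, -, -, a1⟩ := alb_thm cfg_thm S G N v hG hR.fix hv hoff
  obtain ⟨-, -, -, a2⟩ := alb_thm cfg_thm S G S.N v hG hR.fix (KKlf.N_mem S hR.fix) hoff
  have e := (a1 S.N).symm.trans ((mul_comm N S.N ▸ rfl : _ = S.AL G (S.N * N) v).trans (a2 N))
  have e1 := congrArg (fun z : ℂ => Real.log (‖z‖ ^ 2)) e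
  simp only [norm_pow, ← pow_mul, Real.log_pow] at e1
  convert h3 using 2
  rw [← Real.log_div (by simpa using h1) (by simpa using h2), ← div_pow, ← norm_div, ← AL_eq,
    Real.log_pow, Real.log_pow]
  have n1 : (N : ℝ) ≠ 0 := by exact_mod_cast hN
  have n2 : (S.N : ℝ) ≠ 0 := by exact_mod_cast S.N_ne
  push_cast at e1 ⊢
  field_simp
  linear_combination e1 / 2

end Pool.Agent.P.MP_29cb78_nt.F.KP
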